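import Mathlib

/-!
# Definitions for MP_fa2e48_al (abelian p-groups that are slender over their endomorphism rings)

`AddMonoid.End A` is Mathlib's endomorphism ring of the additive group `A`, acting on `A` on the
left by `φ • a = φ a` (Mathlib's instance `AddMonoid.End.applyModule`).
-/

namespace Pool.Agent.Lib_MP_fa2e48_al

/-- A left `R`-module `M` is *slender* if for every `R`-linear map `f` from the countable direct
product `ℕ → R` to `M` one has `f (e n) = 0` for all but finitely many `n`, where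
`e n = Pi.single n 1`. -/
def IsSlender (R M : Type*) [Ring R] [AddCommGroup M] [Module R M] : Prop :=
  ∀ f : (ℕ → R) →ₗ[R] M, {n : ℕ | f (Pi.single n 1) ≠ 0}.Finite

/-- `p ^ ω A`, the subgroup of all elements of infinite `p`-height; it is stable under all
endomorphisms of `A`, so it is a submodule of the left `End A`-module `A`. -/
def infHeight (p : ℕ) (A : Type*) [AddCommGroup A] : Submodule (AddMonoid.End A) A where
  carrier := {a : A | ∀ n : ℕ, ∃ b : A, p ^ n • b = a}
  add_mem' := by
    intro a b ha hb n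
    obtain ⟨c, hc⟩ := ha n
    obtain ⟨d, hd⟩ := hb n
    exact ⟨c + d, by rw [smul_add, hc, hd]⟩
  zero_mem' := fun n => ⟨0, smul_zero _⟩
  smul_mem' := by
    intro φ a ha n
    obtain ⟨c, hc⟩ := ha n
    exact ⟨φ c, by rw [← map_nsmul, hc]; rfl⟩

/-- `A` is torsion-complete: it has no nonzero element of infinite `p`-height, and every sequence
of elements of bounded order that is Cauchy in the `p`-adic topology converges in `A` in the
`p`-adic topology. -/
def IsTorsionComplete (p : ℕ) (A : Type*) [AddCommGroup A] : Prop :=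
  (∀ a : A, (∀ n : ℕ, ∃ b : A, p ^ n • b = a) → a = 0) ∧
  ∀ (k : ℕ) (x : ℕ → A), (∀ i : ℕ, p ^ k • x i = 0) →
    (∀ n : ℕ, ∃ N : ℕ, ∀ i j : ℕ, N ≤ i → N ≤ j → ∃ b : A, p ^ n • b = x i - x j) →
    ∃ a : A, ∀ n : ℕ, ∃ N : ℕ, ∀ i : ℕ, N ≤ i → ∃ b : A, p ^ n • b = x i - a

/-- The subgroup `D` of `A` is divisible: every element of `D` is, for every `n ≠ 0`, of the form
`n • e` with `e ∈ D`. -/
def IsDivisibleSubgroup {A : Type*} [AddCommGroup A] (D : AddSubgroup A) : Prop :=
  ∀ n : ℕ, n ≠ 0 → ∀ d ∈ D, ∃ e ∈ D, n • e = d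

end Pool.Agent.Lib_MP_fa2e48_al
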