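import Mathlib
import Pool.Agent.Lib_MP_fa2e48_al.Defs

/-!
# The tower of subgroups `p ^ σ G`

We use the smallest family of subgroups of `G` that is closed under `X ↦ p X` and under arbitrary
intersections.
-/

namespace Pool.Agent.Lib_MP_fa2e48_al

section Tower

variable {p : ℕ} {G : Type*} [AddCommGroup G]

/-- `p X` -/
def pm (p : ℕ) {G : Type*} [AddCommGroup G] (X : AddSubgroup G) : AddSubgroup G :=
  X.map (nsmulAddMonoidHom (α := G) p)

theorem mem_pm {X : AddSubgroup G} {g : G} : g ∈ pm p X ↔ ∃ x ∈ X, p • x = g := Iff.rfl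

theorem pm_le (X : AddSubgroup G) : pm p X ≤ X := by
  rintro _ ⟨x, hx, rfl⟩
  exact X.nsmul_mem hx p

theorem pm_mono {X Y : AddSubgroup G} (h : X ≤ Y) : pm p X ≤ pm p Y :=
  AddSubgroup.map_mono h

/-- The subgroups `p ^ σ G`. -/
inductive UlmSub (p : ℕ) {G : Type*} [AddCommGroup G] : AddSubgroup G → Prop
  | step (X : AddSubgroup G) : UlmSub p X → UlmSub p (pm p X)
  | inter (S : Set (AddSubgroup G)) : (∀ X ∈ S, UlmSub p X) → UlmSub p (sInf S)

theorem UlmSub.fullyInvariant {X : AddSubgroup G} (h : UlmSub p X) (φ : AddMonoid.End G) :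
    ∀ x ∈ X, φ x ∈ X := by
  induction h with
  | step X _ ih =>
    rintro _ ⟨x, hx, rfl⟩
    refine ⟨φ x, ih x hx, ?_⟩
    show p • φ x = φ (p • x)
    rw [map_nsmul]
  | inter S _ ih =>
    intro x hx
    rw [AddSubgroup.mem_sInf] at hx ⊢
    exact fun X hX => ih X hX x (hx X hX)

/-- Extreme elements of the tower. -/
def Extreme (p : ℕ) {G : Type*} [AddCommGroup G] (c : AddSubgroup G) : Prop :=
  ∀ x : AddSubgroup G, UlmSub p x → c < x → c ≤ pm p x

theorem UlmSub.dichotomy {c : AddSubgroup G} (hc : Extreme p c) {x : AddSubgroup G}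
    (hx : UlmSub p x) : x ≤ pm p c ∨ c ≤ x := by
  induction hx with
  | step X hX ih =>
    rcases ih with h | h
    · exact Or.inl ((pm_le X).trans h)
    · rcases eq_or_lt_of_le h with h | h
      · subst h
        exact Or.inl le_rfl
      · exact Or.inr (hc X hX h)
  | inter S _ ih =>
    by_cases h : ∀ X ∈ S, c ≤ X
    · exact Or.inr (le_sInf h)
    · push Not at h
      obtain ⟨X, hX, hcX⟩ := h
      exact Or.inl ((sInf_le hX).trans ((ih X hX).resolve_right hcX))

theorem UlmSub.extreme {c : AddSubgroup G} (hc : UlmSub p c) : Extreme p c := by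
  induction hc with
  | step X hX ih =>
    intro x hx hlt
    rcases UlmSub.dichotomy ih hx with h | h
    · exact absurd (hlt.trans_le h) (lt_irrefl _)
    · exact pm_mono h
  | inter S hS ih =>
    intro x hx hlt
    have h1 : ∃ t ∈ S, ¬ x ≤ t := by
      by_contra hcon
      push Not at hcon
      exact absurd (hlt.trans_le (le_sInf hcon)) (lt_irrefl _)
    obtain ⟨t, htS, hxt⟩ := h1
    have h2 : t ≤ x := by
      rcases UlmSub.dichotomy (ih t htS) hx with h | h
      · exact absurd (h.trans (pm_le t)) hxt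
      · exact h
    rcases eq_or_lt_of_le h2 with h | h
    · -- `x = t`
      subst h
      exact absurd le_rfl hxt
    · exact (sInf_le htS).trans (ih t htS x hx h)

theorem UlmSub.total {X Y : AddSubgroup G} (hX : UlmSub p X) (hY : UlmSub p Y) :
    X ≤ Y ∨ Y ≤ X := by
  rcases UlmSub.dichotomy hX.extreme hY with h | h
  · exact Or.inr (h.trans (pm_le X))
  · exact Or.inl h

/-- The smallest member of the tower containing `x`. -/
def level (p : ℕ) {G : Type*} [AddCommGroup G] (x : G) : AddSubgroup G :=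
  sInf {X | UlmSub p X ∧ x ∈ X}

theorem level_ulmSub (x : G) : UlmSub p (level p x) := UlmSub.inter _ fun _ h => h.1

theorem mem_level (x : G) : x ∈ level p x := by
  rw [level, AddSubgroup.mem_sInf]
  exact fun X h => h.2

theorem level_le {x : G} {X : AddSubgroup G} (hX : UlmSub p X) (hx : x ∈ X) : level p x ≤ X :=
  sInf_le ⟨hX, hx⟩

theorem level_total (x y : G) : level p x ≤ level p y ∨ level p y ≤ level p x :=
  (level_ulmSub x).total (level_ulmSub y)

end Tower

end Pool.Agent.Lib_MP_fa2e48_al
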