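import Mathlib
import Pool.Agent.Lib_MP_fa2e48_al.Defs
import Pool.Agent.Lib_MP_fa2e48_al.Tower

/-!
# Extending height-nondecreasing partial endomorphisms
-/

namespace Pool.Agent.Lib_MP_fa2e48_al

section Extend

variable {p : ℕ} [hp : Fact p.Prime] {G : Type*} [AddCommGroup G]

/-- A finite partial endomorphism of `H` which respects the tower. -/
structure Good (p : ℕ) {G : Type*} [AddCommGroup G] (H S : AddSubgroup G) (f : G → G) : Prop where
  finite : (S : Set G).Finite
  le : S ≤ H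
  map : ∀ x ∈ S, f x ∈ H
  add : ∀ x ∈ S, ∀ y ∈ S, f (x + y) = f x + f y
  lev : ∀ x ∈ S, ∀ X : AddSubgroup G, UlmSub p X → x ∈ X → f x ∈ X

omit hp in
theorem Good.zero {H S : AddSubgroup G} {f : G → G} (h : Good p H S f) : f 0 = 0 := by
  have := h.add 0 S.zero_mem 0 S.zero_mem
  simpa using this

omit hp in
theorem Good.nsmul {H S : AddSubgroup G} {f : G → G} (h : Good p H S f) (n : ℕ) (x : G)
    (hx : x ∈ S) : f (n • x) = n • f x := by
  induction n with
  | zero => simp [h.zero]
  | succ n ih => rw [succ_nsmul, h.add _ (S.nsmul_mem hx n) _ hx, ih, succ_nsmul]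

/-- One extension step. -/
theorem Good.extend {H S : AddSubgroup G} {f : G → G} (h : Good p H S f)
    (e : AddMonoid.End G) (heH : ∀ g, e g ∈ H) (he : ∀ g ∈ H, e g = g)
    (hinf : ∀ x ∈ H, x ≠ 0 → {v : G | v ∈ level p x ∧ v ∈ H ∧ p • v = 0}.Infinite)
    (x0 : G) (hx0H : x0 ∈ H) (hpx0 : p • x0 ∈ S) (hx0 : x0 ∉ S) :
    ∃ (S' : AddSubgroup G) (f' : G → G), Good p H S' f' ∧ S ≤ S' ∧ x0 ∈ S' ∧
      (∀ z ∈ S, f' z = f z) ∧ (∀ z ∈ S', z ∉ S → f' z ∉ S') := by
  classical
  -- choose `x` in the coset `x0 + S` of smallest level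
  obtain ⟨s0, hs0, hmin⟩ : ∃ s0 ∈ S, ∀ s ∈ S, level p (x0 + s0) ≤ level p (x0 + s) := by
    have hne : (S : Set G).Nonempty := ⟨0, S.zero_mem⟩
    obtain ⟨s0, hs0, hmin⟩ := h.finite.exists_minimalFor (fun s => level p (x0 + s)) _ hne
    refine ⟨s0, hs0, fun s hs => ?_⟩
    rcases level_total (p := p) (x0 + s0) (x0 + s) with h1 | h1
    · exact h1
    · exact hmin hs h1
  set x : G := x0 + s0 with hxdef
  have hxH : x ∈ H := H.add_mem hx0H (h.le hs0)
  have hxS : x ∉ S := by
    intro hx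
    apply hx0
    have := S.sub_mem hx hs0
    simpa [hxdef] using this
  have hpx : p • x ∈ S := by
    rw [hxdef, smul_add]
    exact S.add_mem hpx0 (S.nsmul_mem hs0 p)
  have hx00 : x ≠ 0 := fun hx => hxS (by rw [hx]; exact S.zero_mem)
  -- a candidate image
  obtain ⟨y0, hy0lev, hy0H, hpy0⟩ : ∃ y0 ∈ level p x, y0 ∈ H ∧ p • y0 = f (p • x) := by
    have h1 : p • x ∈ pm p (level p x) := ⟨x, mem_level x, rfl⟩
    have h2 := h.lev _ hpx _ (UlmSub.step _ (level_ulmSub x)) h1
    obtain ⟨y', hy', hpy'⟩ := mem_pm.1 h2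
    refine ⟨e y', (level_ulmSub x).fullyInvariant e y' hy', heH y', ?_⟩
    rw [← map_nsmul, hpy', he _ (h.map _ hpx)]
  -- the new subgroup
  let S' : AddSubgroup G := S ⊔ AddSubgroup.zmultiples x
  have hS'mem : ∀ z, z ∈ S' ↔ ∃ s ∈ S, ∃ i < p, z = s + i • x := by
    intro z
    constructor
    · intro hz
      obtain ⟨s, hs, t, ht, rfl⟩ := AddSubgroup.mem_sup.1 hz
      obtain ⟨m, rfl⟩ := AddSubgroup.mem_zmultiples_iff.1 ht
      have hp0 : (p : ℤ) ≠ 0 := by exact_mod_cast hp.out.ne_zero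
      have h1 : 0 ≤ m % p := Int.emod_nonneg m hp0
      have h2 : m % p < p := Int.emod_lt_of_pos m (by exact_mod_cast hp.out.pos)
      refine ⟨s + (m / p) • (p • x), S.add_mem hs (S.zsmul_mem hpx _), (m % p).toNat, by omega, ?_⟩
      have h3 : (m % p).toNat • x = (m % p) • x := by
        rw [← natCast_zsmul, Int.toNat_of_nonneg h1]
      have h4 : (m / p) • (p • x) = ((p : ℤ) * (m / p)) • x := by
        rw [mul_comm, mul_smul, natCast_zsmul]
      rw [h3, h4, add_assoc, ← add_smul, Int.mul_ediv_add_emod]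
    · rintro ⟨s, hs, i, _, rfl⟩
      exact S'.add_mem (AddSubgroup.mem_sup_left hs)
        (AddSubgroup.mem_sup_right ((AddSubgroup.zmultiples x).nsmul_mem
          (AddSubgroup.mem_zmultiples x) i))
  have hSS' : S ≤ S' := le_sup_left
  have hxS' : x ∈ S' := AddSubgroup.mem_sup_right (AddSubgroup.mem_zmultiples x)
  have hS'fin : (S' : Set G).Finite := by
    have : (S' : Set G) ⊆ (fun q : G × ℕ => q.1 + q.2 • x) '' ((S : Set G) ×ˢ (Set.Iio p)) := by
      intro z hz
      obtain ⟨s, hs, i, hi, rfl⟩ := (hS'mem z).1 hz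
      exact ⟨(s, i), ⟨hs, hi⟩, rfl⟩
    exact ((h.finite.prod (Set.finite_Iio p)).image _).subset this
  -- the correction term
  obtain ⟨v, hvlev, hvH, hpv, hv⟩ : ∃ v ∈ level p x, v ∈ H ∧ p • v = 0 ∧
      ∀ i, 0 < i → i < p → ∀ s ∈ S, f s + i • (y0 + v) ∉ S' := by
    let F : Set G := (fun q : (ℕ × ℕ) × (G × G) =>
      q.1.1 • (q.2.2 - f q.2.1 - q.1.2 • y0)) ''
        ((Set.Iio p ×ˢ Set.Iio p) ×ˢ ((S : Set G) ×ˢ (S' : Set G)))
    have hF : F.Finite := ((((Set.finite_Iio p).prod (Set.finite_Iio p)).prod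
      (h.finite.prod hS'fin)).image _)
    obtain ⟨v, ⟨hv1, hv2, hv3⟩, hvF⟩ := ((hinf x hxH hx00).sdiff hF).nonempty
    refine ⟨v, hv1, hv2, hv3, ?_⟩
    intro i hi0 hip s hs hmem
    apply hvF
    -- an inverse of `i` mod `p`
    have hco : Nat.Coprime i p := by
      rw [Nat.coprime_comm]
      exact (Nat.Prime.coprime_iff_not_dvd hp.out).2 fun hd => by
        have := Nat.le_of_dvd hi0 hd; omega
    obtain ⟨j, -, hj⟩ := Nat.exists_mul_mod_eq_one_of_coprime hco hp.out.one_lt
    have hjp : (j % p) * i % p = 1 := by rw [Nat.mod_mul_mod, mul_comm]; exact hj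
    refine ⟨((j % p, i), (s, f s + i • (y0 + v))),
      ⟨⟨Nat.mod_lt _ hp.out.pos, hip⟩, ⟨hs, hmem⟩⟩, ?_⟩
    have h1 : f s + i • (y0 + v) - f s - i • y0 = i • v := by rw [smul_add]; abel
    show (j % p) • (f s + i • (y0 + v) - f s - i • y0) = v
    rw [h1, smul_smul, ← Nat.div_add_mod ((j % p) * i) p, hjp, add_smul, mul_comm, mul_smul, hv3,
      smul_zero, zero_add, one_smul]
  let y : G := y0 + v
  have hylev : y ∈ level p x := (level p x).add_mem hy0lev hvlev
  have hyH : y ∈ H := H.add_mem hy0H hvH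
  have hpy : p • y = f (p • x) := by
    show p • (y0 + v) = _
    rw [smul_add, hpv, add_zero, hpy0]
  -- uniqueness of representations
  have huniq : ∀ s ∈ S, ∀ s' ∈ S, ∀ i < p, ∀ i' < p, s + i • x = s' + i' • x → i = i' ∧ s = s' := by
    have key : ∀ s ∈ S, ∀ s' ∈ S, ∀ i i' : ℕ, i < p → i' < p → i ≤ i' → s + i • x = s' + i' • x →
        i = i' ∧ s = s' := by
      intro s hs s' hs' i i' hi hi' hle heq
      obtain ⟨d, rfl⟩ := Nat.exists_eq_add_of_le hle
      have h1 : d • x = s - s' := by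
        rw [add_smul] at heq
        have h2 : s + i • x - (s' + i • x) = d • x := by rw [heq]; abel
        rw [← h2]; abel
      rcases Nat.eq_zero_or_pos d with rfl | hd
      · refine ⟨by omega, ?_⟩
        rw [zero_smul] at h1
        exact (sub_eq_zero.1 h1.symm)
      · exfalso
        apply hxS
        have hdx : d • x ∈ S := by rw [h1]; exact S.sub_mem hs hs'
        have hco : Nat.Coprime d p := by
          rw [Nat.coprime_comm]
          exact (Nat.Prime.coprime_iff_not_dvd hp.out).2 fun hd' => by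
            have := Nat.le_of_dvd hd hd'; omega
        obtain ⟨j, -, hj⟩ := Nat.exists_mul_mod_eq_one_of_coprime hco hp.out.one_lt
        have h2 : (j * d) • x = x + (j * d / p) • (p • x) := by
          conv_lhs => rw [← Nat.div_add_mod (j * d) p, mul_comm j d, hj]
          rw [add_smul, one_smul, mul_comm, mul_smul, add_comm, mul_comm d j]
        have h3 : x = (j * d) • x - (j * d / p) • (p • x) := by rw [h2]; abel
        rw [h3, mul_smul]
        exact S.sub_mem (S.nsmul_mem hdx j) (S.nsmul_mem hpx _)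
    intro s hs s' hs' i hi i' hi' heq
    rcases le_total i i' with hle | hle
    · exact key s hs s' hs' i i' hi hi' hle heq
    · obtain ⟨h1, h2⟩ := key s' hs' s hs i' i hi' hi hle heq.symm
      exact ⟨h1.symm, h2.symm⟩
  -- the extension
  let f' : G → G := fun z => if hz : ∃ s ∈ S, ∃ i < p, z = s + i • x then
    f hz.choose + (hz.choose_spec.2.choose) • y else 0
  have hf'0 : ∀ s ∈ S, ∀ i < p, f' (s + i • x) = f s + i • y := by
    intro s hs i hi
    have hz : ∃ s' ∈ S, ∃ i' < p, s + i • x = s' + i' • x := ⟨s, hs, i, hi, rfl⟩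
    have h1 : f' (s + i • x) = f hz.choose + (hz.choose_spec.2.choose) • y := dif_pos hz
    obtain ⟨h2, h3⟩ := huniq s hs _ hz.choose_spec.1 i hi _ hz.choose_spec.2.choose_spec.1
      hz.choose_spec.2.choose_spec.2
    rw [h1, ← h2, ← h3]
  have hf' : ∀ s ∈ S, ∀ m : ℕ, f' (s + m • x) = f s + m • y := by
    intro s hs m
    have h1 : s + m • x = (s + (m / p) • (p • x)) + (m % p) • x := by
      conv_lhs => rw [← Nat.div_add_mod m p]
      rw [add_smul, mul_comm, mul_smul]
      abel
    rw [h1, hf'0 _ (S.add_mem hs (S.nsmul_mem hpx _)) _ (Nat.mod_lt _ hp.out.pos),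
      h.add _ hs _ (S.nsmul_mem hpx _), h.nsmul _ _ hpx, ← hpy]
    conv_rhs => rw [← Nat.div_add_mod m p]
    rw [add_smul, mul_comm p, mul_smul]
    abel
  have hf'S : ∀ z ∈ S, f' z = f z := by
    intro z hz
    have := hf' z hz 0
    simpa using this
  refine ⟨S', f', ?_, hSS', ?_, hf'S, ?_⟩
  · refine ⟨hS'fin, ?_, ?_, ?_, ?_⟩
    · refine sup_le h.le ?_
      rw [AddSubgroup.zmultiples_le]
      exact hxH
    · intro z hz
      obtain ⟨s, hs, i, hi, rfl⟩ := (hS'mem z).1 hz
      rw [hf' s hs i]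
      exact H.add_mem (h.map s hs) (H.nsmul_mem hyH i)
    · intro z hz z' hz'
      obtain ⟨s, hs, i, hi, rfl⟩ := (hS'mem z).1 hz
      obtain ⟨s', hs', i', hi', rfl⟩ := (hS'mem z').1 hz'
      have h1 : s + i • x + (s' + i' • x) = (s + s') + (i + i') • x := by
        rw [add_smul]; abel
      rw [h1, hf' _ (S.add_mem hs hs'), hf' s hs, hf' s' hs', h.add s hs s' hs', add_smul]
      abel
    · intro z hz X hX hzX
      obtain ⟨s, hs, i, hi, rfl⟩ := (hS'mem z).1 hz
      rw [hf' s hs i]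
      rcases Nat.eq_zero_or_pos i with rfl | hi0
      · simp only [zero_smul, add_zero] at hzX ⊢
        exact h.lev s hs X hX hzX
      · have hco : Nat.Coprime i p := by
          rw [Nat.coprime_comm]
          exact (Nat.Prime.coprime_iff_not_dvd hp.out).2 fun hd => by
            have := Nat.le_of_dvd hi0 hd; omega
        obtain ⟨j, -, hj⟩ := Nat.exists_mul_mod_eq_one_of_coprime hco hp.out.one_lt
        have h2 : j • (s + i • x) = x0 + (s0 + (j • s + (j * i / p) • (p • x))) := by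
          have h3 : (j * i) • x = x + (j * i / p) • (p • x) := by
            conv_lhs => rw [← Nat.div_add_mod (j * i) p, mul_comm j i, hj]
            rw [add_smul, one_smul, mul_comm, mul_smul, add_comm, mul_comm i j]
          rw [smul_add, smul_smul, h3, hxdef]
          abel
        have h4 : x0 + (s0 + (j • s + (j * i / p) • (p • x))) ∈ X := by
          rw [← h2]; exact X.nsmul_mem hzX j
        have h5 : s0 + (j • s + (j * i / p) • (p • x)) ∈ S :=
          S.add_mem hs0 (S.add_mem (S.nsmul_mem hs j) (S.nsmul_mem hpx _))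
        have h6 : level p x ≤ X := (hmin _ h5).trans (level_le hX h4)
        have hxX : x ∈ X := h6 (mem_level x)
        have hsX : s ∈ X := by
          have := X.sub_mem hzX (X.nsmul_mem hxX i)
          simpa using this
        exact X.add_mem (h.lev s hs X hX hsX) (X.nsmul_mem (h6 hylev) i)
  · have : x0 = x - s0 := by rw [hxdef]; abel
    rw [this]
    exact S'.sub_mem hxS' (hSS' hs0)
  · intro z hz hzS
    obtain ⟨s, hs, i, hi, rfl⟩ := (hS'mem z).1 hz
    have hi0 : 0 < i := by
      rcases Nat.eq_zero_or_pos i with rfl | hi0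
      · exact absurd (by simpa using hs) hzS
      · exact hi0
    rw [hf' s hs i]
    exact hv i hi0 hi s hs

end Extend

end Pool.Agent.Lib_MP_fa2e48_al
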