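import Mathlib
import Pool.Agent.Lib_MP_fa2e48_al.Defs
import Pool.Agent.Lib_MP_fa2e48_al.Tower
import Pool.Agent.Lib_MP_fa2e48_al.Extend

/-!
# Building the shift endomorphism on a countable summand
-/

namespace Pool.Agent.Lib_MP_fa2e48_al

section Chain

variable {p : ℕ} [hp : Fact p.Prime] {G : Type*} [AddCommGroup G]

/-- On a countable direct summand `H` of `G` whose levels have infinite socles in `H` there is an
endomorphism `τ` with values in `H` that strictly raises a rank function. -/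
theorem exists_shift (hG : ∀ g : G, ∃ k : ℕ, p ^ k • g = 0) (H : AddSubgroup G)
    (hH : (H : Set G).Countable)
    (e : AddMonoid.End G) (heH : ∀ g, e g ∈ H) (he : ∀ g ∈ H, e g = g)
    (hinf : ∀ x ∈ H, x ≠ 0 → {v : G | v ∈ level p x ∧ v ∈ H ∧ p • v = 0}.Infinite) :
    ∃ (τ : AddMonoid.End G) (l : G → ℕ), (∀ g, τ g ∈ H) ∧
      ∀ x ∈ H, x ≠ 0 → τ x ≠ 0 ∧ l x < l (τ x) := by
  classical
  -- an enumeration of `H` in which every element occurs infinitely often
  obtain ⟨g0, hg0⟩ : ∃ g0 : ℕ → G, (∀ n, g0 n ∈ H) ∧ ∀ x ∈ H, ∃ n, g0 n = x := by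
    obtain ⟨g, hg⟩ := hH.exists_eq_range ⟨0, H.zero_mem⟩
    refine ⟨g, fun n => ?_, fun x hx => ?_⟩
    · have : g n ∈ (H : Set G) := by rw [hg]; exact ⟨n, rfl⟩
      exact this
    · have : x ∈ (H : Set G) := hx
      rw [hg] at this
      exact this
  let g : ℕ → G := fun n => g0 n.unpair.1
  have hgH : ∀ n, g n ∈ H := fun n => hg0.1 _
  have hgio : ∀ x ∈ H, ∀ N, ∃ n, N ≤ n ∧ g n = x := by
    intro x hx N
    obtain ⟨m, hm⟩ := hg0.2 x hx
    refine ⟨Nat.pair m N, Nat.right_le_pair m N, ?_⟩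
    simp only [g, Nat.unpair_pair, hm]
  -- the states
  let State : Type _ := {q : AddSubgroup G × (G → G) // Good p H q.1 q.2}
  have hstep : ∀ (q : State) (n : ℕ), ∃ q' : State, q.1.1 ≤ q'.1.1 ∧
      (∀ z ∈ q.1.1, q'.1.2 z = q.1.2 z) ∧ (∀ z ∈ q'.1.1, z ∉ q.1.1 → q'.1.2 z ∉ q'.1.1) ∧
      (p • g n ∈ q.1.1 → g n ∈ q'.1.1) := by
    intro q n
    by_cases hc : p • g n ∈ q.1.1 ∧ g n ∉ q.1.1
    · obtain ⟨S', f', h1, h2, h3, h4, h5⟩ :=
        q.2.extend e heH he hinf (g n) (hgH n) hc.1 hc.2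
      exact ⟨⟨(S', f'), h1⟩, h2, h4, h5, fun _ => h3⟩
    · refine ⟨q, le_rfl, fun _ _ => rfl, fun z hz hz' => absurd hz hz', fun h => ?_⟩
      by_contra h'
      exact hc ⟨h, h'⟩
  choose next hnext1 hnext2 hnext3 hnext4 using hstep
  have hgood0 : Good p H ⊥ (fun _ => 0) := by
    refine ⟨by simp, bot_le, fun _ _ => H.zero_mem, fun _ _ _ _ => by simp, fun _ _ X _ _ => X.zero_mem⟩
  let σ : ℕ → State := fun n => Nat.rec ⟨(⊥, fun _ => 0), hgood0⟩ (fun n q => next q n) n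
  have hσ : ∀ n, σ (n + 1) = next (σ n) n := fun n => rfl
  let S : ℕ → AddSubgroup G := fun n => (σ n).1.1
  let f : ℕ → G → G := fun n => (σ n).1.2
  have hgood : ∀ n, Good p H (S n) (f n) := fun n => (σ n).2
  have hSmono : Monotone S := monotone_nat_of_le_succ fun n => by
    show (σ n).1.1 ≤ (σ (n + 1)).1.1
    rw [hσ]; exact hnext1 _ _
  have hfS : ∀ n, ∀ z ∈ S n, f (n + 1) z = f n z := by
    intro n z hz
    show (σ (n + 1)).1.2 z = _
    rw [hσ]; exact hnext2 _ _ z hz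
  have hfle : ∀ m n, m ≤ n → ∀ z ∈ S m, f n z = f m z := by
    intro m n hmn
    induction n, hmn using Nat.le_induction with
    | base => intro z _; rfl
    | succ n hmn ih => intro z hz; rw [hfS n z (hSmono hmn hz), ih z hz]
  have hnew : ∀ n, ∀ z ∈ S (n + 1), z ∉ S n → f (n + 1) z ∉ S (n + 1) := by
    intro n z hz hz'
    have h1 : z ∈ (σ (n + 1)).1.1 := hz
    show (σ (n + 1)).1.2 z ∉ (σ (n + 1)).1.1
    rw [hσ] at h1 ⊢
    exact hnext3 _ _ z h1 hz'
  have hadd : ∀ n, p • g n ∈ S n → g n ∈ S (n + 1) := by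
    intro n h
    show g n ∈ (σ (n + 1)).1.1
    rw [hσ]; exact hnext4 _ _ h
  -- exhaustion
  have hex : ∀ x ∈ H, ∃ n, x ∈ S n := by
    have key : ∀ k : ℕ, ∀ x ∈ H, p ^ k • x = 0 → ∃ n, x ∈ S n := by
      intro k
      induction k with
      | zero =>
        intro x _ hx
        refine ⟨0, ?_⟩
        have : x = 0 := by simpa using hx
        rw [this]; exact (S 0).zero_mem
      | succ k ih =>
        intro x hxH hx
        obtain ⟨n, hn⟩ := ih (p • x) (H.nsmul_mem hxH p) (by rw [smul_smul, ← pow_succ, hx])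
        obtain ⟨m, hm, hgm⟩ := hgio x hxH n
        refine ⟨m + 1, ?_⟩
        have h1 := hadd m (by rw [hgm]; exact hSmono hm hn)
        rwa [hgm] at h1
    intro x hx
    obtain ⟨k, hk⟩ := hG x
    exact key k x hx hk
  -- the rank function and the limit map
  let l : G → ℕ := fun x => if hx : ∃ n, x ∈ S n then Nat.find hx else 0
  have hl : ∀ x ∈ H, x ∈ S (l x) ∧ ∀ m, x ∈ S m → l x ≤ m := by
    intro x hx
    have h := hex x hx
    have h1 : l x = Nat.find h := dif_pos h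
    rw [h1]
    exact ⟨Nat.find_spec h, fun m hm => Nat.find_le hm⟩
  let t : G → G := fun x => f (l x) x
  have ht : ∀ n, ∀ x ∈ S n, t x = f n x := by
    intro n x hx
    have hxH := (hgood n).le hx
    obtain ⟨h1, h2⟩ := hl x hxH
    exact (hfle (l x) n (h2 n hx) x h1).symm
  have htH : ∀ x ∈ H, t x ∈ H := fun x hx => (hgood _).map x (hl x hx).1
  have htadd : ∀ x ∈ H, ∀ y ∈ H, t (x + y) = t x + t y := by
    intro x hx y hy
    have hx1 : x ∈ S (max (l x) (l y)) := hSmono (le_max_left _ _) (hl x hx).1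
    have hy1 : y ∈ S (max (l x) (l y)) := hSmono (le_max_right _ _) (hl y hy).1
    rw [ht _ x hx1, ht _ y hy1, ht _ (x + y) ((S _).add_mem hx1 hy1)]
    exact (hgood _).add x hx1 y hy1
  let τ : AddMonoid.End G := AddMonoidHom.mk' (fun x => t (e x)) (by
    intro x y
    show t (e (x + y)) = t (e x) + t (e y)
    rw [map_add]
    exact htadd _ (heH x) _ (heH y))
  have hτ : ∀ x, τ x = t (e x) := fun x => rfl
  refine ⟨τ, l, fun x => htH _ (heH x), ?_⟩
  intro x hx hx0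
  rw [hτ, he x hx]
  obtain ⟨h1, h2⟩ := hl x hx
  -- `l x = m + 1`
  obtain ⟨m, hm⟩ : ∃ m, l x = m + 1 := by
    rcases hlx : l x with _ | m
    · exfalso
      rw [hlx] at h1
      have h3 : x ∈ (⊥ : AddSubgroup G) := h1
      exact hx0 (by simpa using h3)
    · exact ⟨m, rfl⟩
  have h3 : x ∉ S m := fun h => by have := h2 m h; omega
  rw [hm] at h1
  have h4 : t x ∉ S (m + 1) := by
    rw [ht (m + 1) x h1]
    exact hnew m x h1 h3
  refine ⟨fun h => h4 (by rw [h]; exact (S (m + 1)).zero_mem), ?_⟩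
  rw [hm]
  by_contra hcon
  push Not at hcon
  exact h4 (hSmono hcon (hl (t x) (htH x hx)).1)

end Chain

end Pool.Agent.Lib_MP_fa2e48_al
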