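import Mathlib
import Pool.Agent.Lib_MP_fa2e48_al.Defs

/-!
# General facts on slender modules
-/

namespace Pool.Agent.Lib_MP_fa2e48_al

section General

variable {R M : Type*} [Ring R] [AddCommGroup M] [Module R M]

/-- A submodule of a slender module is slender. -/
theorem IsSlender.submodule (h : IsSlender R M) (N : Submodule R M) : IsSlender R N := by
  intro f
  have := h (N.subtype ∘ₗ f)
  refine this.subset ?_
  intro n hn
  simpa using hn

/-- Right multiplication by a sequence. -/
def rmulSeq (R : Type*) [Ring R] (x : ℕ → R) : (ℕ → R) →ₗ[R] (ℕ → R) where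
  toFun r := fun n => r n * x n
  map_add' r s := by funext n; simp [add_mul]
  map_smul' c r := by funext n; simp [mul_assoc]

/-- The tail map. -/
def tailMap (R : Type*) [Ring R] (x : ℕ → R) : (ℕ → R) →ₗ[R] (ℕ → R) where
  toFun r := fun k => (∑ n ∈ Finset.range (k + 1), r n) * x k
  map_add' r s := by
    funext k
    simp [Finset.sum_add_distrib, add_mul]
  map_smul' c r := by
    funext k
    simp only [Pi.smul_apply, smul_eq_mul, RingHom.id_apply, ← Finset.mul_sum, mul_assoc]

theorem tailMap_single (x : ℕ → R) (n : ℕ) :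
    tailMap R x (Pi.single n 1) = x - ∑ k ∈ Finset.range n, x k • (Pi.single k (1 : R) : ℕ → R) := by
  funext k
  simp only [tailMap, LinearMap.coe_mk, AddHom.coe_mk, Pi.sub_apply, Finset.sum_apply,
    Pi.smul_apply, smul_eq_mul, Pi.single_apply, Finset.sum_ite_eq, Finset.mem_range,
    mul_ite, mul_one, mul_zero]
  rw [Finset.sum_ite_eq']
  simp only [Finset.mem_range]
  by_cases h : n ≤ k
  · have h1 : n < k + 1 := by omega
    have h2 : ¬ (k < n) := by omega
    simp [h1, h2]
  · have h1 : ¬ (n < k + 1) := by omega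
    have h2 : k < n := by omega
    simp [h1, h2]

/-- If every `f : R^ω → M` maps almost all `e n` into the submodule `N`, then every `f` maps a whole
tail of the product into `N`. -/
theorem tail_mem (N : Submodule R M)
    (h : ∀ f : (ℕ → R) →ₗ[R] M, {n : ℕ | f (Pi.single n 1) ∉ N}.Finite)
    (f : (ℕ → R) →ₗ[R] M) :
    ∃ K : ℕ, ∀ x : ℕ → R, (∀ n < K, x n = 0) → f x ∈ N := by
  obtain ⟨K, hK⟩ : ∃ K : ℕ, ∀ n, K ≤ n → f (Pi.single n 1) ∈ N := by
    obtain ⟨K, hK⟩ := (h f).bddAbove
    refine ⟨K + 1, fun n hn => ?_⟩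
    by_contra hc
    have := hK hc
    omega
  refine ⟨K, fun x hx => ?_⟩
  by_contra hc
  have key : ∀ n, K ≤ n → (f ∘ₗ tailMap R x) (Pi.single n 1) ∉ N := by
    intro n hn hmem
    apply hc
    rw [LinearMap.comp_apply, tailMap_single, map_sub, map_sum] at hmem
    have h2 : ∑ k ∈ Finset.range n, f (x k • (Pi.single k (1 : R) : ℕ → R)) ∈ N := by
      refine Submodule.sum_mem _ fun k hk => ?_
      rw [map_smul]
      by_cases hkK : k < K
      · rw [hx k hkK, zero_smul]; exact N.zero_mem
      · exact N.smul_mem _ (hK k (by omega))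
    have := N.add_mem hmem h2
    simpa using this
  have hinf : {n : ℕ | (f ∘ₗ tailMap R x) (Pi.single n 1) ∉ N}.Infinite := by
    refine Set.infinite_of_injective_forall_mem (f := fun n : ℕ => n + K) (fun a b hab => by
      simpa using hab) ?_
    intro n
    exact key (n + K) (by omega)
  exact hinf (h _)

/-- Restriction of an index shift: `r ↦ (0, …, 0, r 0, r 1, …)`. -/
def shiftMap (R : Type*) [Ring R] (K : ℕ) : (ℕ → R) →ₗ[R] (ℕ → R) where
  toFun r := fun n => if K ≤ n then r (n - K) else 0
  map_add' r s := by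
    funext n
    by_cases h : K ≤ n <;> simp [h]
  map_smul' c r := by
    funext n
    by_cases h : K ≤ n <;> simp [h]

theorem shiftMap_single (K n : ℕ) :
    shiftMap R K (Pi.single n 1) = (Pi.single (n + K) 1 : ℕ → R) := by
  funext k
  simp only [shiftMap, LinearMap.coe_mk, AddHom.coe_mk, Pi.single_apply]
  by_cases h : K ≤ k
  · by_cases h2 : k - K = n
    · have : k = n + K := by omega
      simp [h, h2, this]
    · have h3 : ¬ (k = n + K) := by omega
      simp [h2, h3]
  · have : ¬ (k = n + K) := by omega
    simp [h, this]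

/-- If almost all `f (e n)` lie in a slender submodule `N` for every `f`, then `M` is slender. -/
theorem isSlender_of_submodule (N : Submodule R M)
    (h : ∀ f : (ℕ → R) →ₗ[R] M, {n : ℕ | f (Pi.single n 1) ∉ N}.Finite)
    (hN : IsSlender R N) : IsSlender R M := by
  intro f
  obtain ⟨K, hK⟩ := tail_mem N h f
  let g : (ℕ → R) →ₗ[R] N := LinearMap.codRestrict N (f ∘ₗ shiftMap R K) (by
    intro x
    apply hK
    intro n hn
    simp [shiftMap, hn])
  have hg := hN g
  have hg' : {n : ℕ | f (Pi.single (n + K) 1) ≠ 0}.Finite := by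
    refine hg.subset ?_
    intro n hn hc
    apply hn
    have := congrArg Subtype.val hc
    simpa [g, shiftMap_single] using this
  have : {n : ℕ | f (Pi.single n 1) ≠ 0} ⊆
      (Set.Iio K) ∪ (fun n => n + K) '' {n : ℕ | f (Pi.single (n + K) 1) ≠ 0} := by
    intro n hn
    by_cases hnK : n < K
    · exact Or.inl hnK
    · refine Or.inr ⟨n - K, ?_, by simp; omega⟩
      simp only [Set.mem_ofPred_eq]
      rwa [Nat.sub_add_cancel (by omega)]
  exact ((Set.finite_Iio K).union (hg'.image _)).subset this

/-- The partial sums map `r ↦ (∑_{k ≤ n} r k • a)_n`. -/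
theorem not_isSlender_of_finite [Finite M] (a : M) (ha : a ≠ 0) : ¬ IsSlender R M := by
  intro h
  classical
  let U : Ultrafilter ℕ := Filter.hyperfilter ℕ
  -- every sequence in a finite set is `U`-almost constant
  have hex : ∀ x : ℕ → M, ∃ y : M, ∀ᶠ n in (U : Filter ℕ), x n = y := by
    intro x
    have hu : (⋃ y ∈ (Set.univ : Set M), {n : ℕ | x n = y}) ∈ U := by
      have h0 : (⋃ y ∈ (Set.univ : Set M), {n : ℕ | x n = y}) = Set.univ := by
        ext n
        simp
      rw [h0]
      exact Filter.univ_mem
    obtain ⟨y, -, hy⟩ := (Ultrafilter.finite_biUnion_mem_iff Set.finite_univ).1 hu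
    exact ⟨y, hy⟩
  choose L hL using hex
  have huniq : ∀ (x : ℕ → M) (y : M), (∀ᶠ n in (U : Filter ℕ), x n = y) → L x = y := by
    intro x y hy
    obtain ⟨n, h1, h2⟩ := ((hL x).and hy).exists
    exact h1.symm.trans h2
  let f : (ℕ → R) →ₗ[R] M :=
    { toFun := fun r => L (fun n => ∑ k ∈ Finset.range (n + 1), r k • a)
      map_add' := by
        intro r s
        apply huniq
        filter_upwards [hL (fun n => ∑ k ∈ Finset.range (n + 1), r k • a),
          hL (fun n => ∑ k ∈ Finset.range (n + 1), s k • a)] with n h1 h2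
        rw [← h1, ← h2]
        simp [add_smul, Finset.sum_add_distrib]
      map_smul' := by
        intro c r
        apply huniq
        filter_upwards [hL (fun n => ∑ k ∈ Finset.range (n + 1), r k • a)] with n h1
        rw [← h1]
        simp [mul_smul, Finset.smul_sum] }
  have hf : ∀ n, f (Pi.single n 1) = a := by
    intro n
    apply huniq
    have : ∀ᶠ m in (U : Filter ℕ), n ≤ m := by
      have h1 : (Set.Ici n) ∈ (Filter.cofinite : Filter ℕ) := by
        rw [Nat.cofinite_eq_atTop]
        exact Filter.mem_atTop n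
      exact Filter.hyperfilter_le_cofinite h1
    filter_upwards [this] with m hm
    have hm' : n < m + 1 := by omega
    simp [Pi.single_apply, Finset.sum_ite_eq', hm']
  have hinf : {n : ℕ | f (Pi.single n 1) ≠ 0} = Set.univ := by
    ext n
    simp [hf n, ha]
  have := h f
  rw [hinf] at this
  exact Set.infinite_univ this

/-- A module with a nonzero finite submodule is not slender. -/
theorem not_isSlender_of_finite_submodule (N : Submodule R M) (hN : (N : Set M).Finite)
    (a : M) (haN : a ∈ N) (ha : a ≠ 0) : ¬ IsSlender R M := by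
  intro h
  have : Finite N := hN
  exact not_isSlender_of_finite (R := R) (M := N) ⟨a, haN⟩ (by simpa using ha) (h.submodule N)

end General

end Pool.Agent.Lib_MP_fa2e48_al
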