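import Mathlib
import Pool.Agent.Lib_MP_fa2e48_al.Defs

/-!
# Injectivity over `ZMod (p ^ n)` and homomorphisms into cyclic groups
-/

namespace Pool.Agent.Lib_MP_fa2e48_al

section Baer

variable {p : ℕ} [hp : Fact p.Prime]

omit hp in
theorem cast_pow_self (n : ℕ) : (p : ZMod (p ^ n)) ^ n = 0 := by
  have : ((p ^ n : ℕ) : ZMod (p ^ n)) = 0 := ZMod.natCast_self _
  rw [← this]; push_cast; rfl

/-- Every element of `ZMod (p ^ n)` is a unit times a power of `p`, in the weak form needed here. -/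
theorem exists_bezout (n : ℕ) (a : ℤ) : ∃ i ≤ n, ∃ u b : ℤ,
    (p : ZMod (p ^ n)) ^ i = (a : ZMod (p ^ n)) * (u : ZMod (p ^ n)) ∧
    a = (p : ℤ) ^ i * b := by
  have hd : ((Int.gcd a ((p : ℤ) ^ n) : ℕ)) ∣ p ^ n := by
    have := Int.gcd_dvd_right (a := a) (b := (p : ℤ) ^ n)
    exact_mod_cast this
  obtain ⟨i, hi, hdi⟩ := (Nat.dvd_prime_pow hp.out).1 hd
  have hbez := Int.gcd_eq_gcd_ab a ((p : ℤ) ^ n)
  rw [hdi] at hbez
  obtain ⟨b, hb⟩ : ((p ^ i : ℕ) : ℤ) ∣ a := by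
    rw [← hdi]; exact Int.gcd_dvd_left ..
  refine ⟨i, hi, Int.gcdA a ((p : ℤ) ^ n), b, ?_, by rw [hb]; push_cast; rfl⟩
  have := congrArg (fun z : ℤ => (z : ZMod (p ^ n))) hbez
  push_cast at this
  rw [this, cast_pow_self, zero_mul, add_zero]

/-- Baer criterion over `ZMod (p ^ n)`. -/
theorem baer_zmod (n : ℕ) (Q : Type*) [AddCommGroup Q] [Module (ZMod (p ^ n)) Q]
    (hQ : ∀ i j : ℕ, i + j = n → ∀ y : Q, ((p : ZMod (p ^ n)) ^ j) • y = 0 →
      ∃ c : Q, ((p : ZMod (p ^ n)) ^ i) • c = y) :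
    Module.Baer (ZMod (p ^ n)) Q := by
  intro I g
  have : IsPrincipalIdealRing (ZMod (p ^ n)) :=
    IsPrincipalIdealRing.of_surjective (Int.castRingHom (ZMod (p ^ n))) ZMod.intCast_surjective
  obtain ⟨m, hm⟩ := (IsPrincipalIdealRing.principal I)
  subst hm
  obtain ⟨a, rfl⟩ := ZMod.intCast_surjective m
  have hmem : ((a : ℤ) : ZMod (p ^ n)) ∈ Submodule.span (ZMod (p ^ n)) {((a : ℤ) : ZMod (p ^ n))} :=
    Submodule.subset_span (Set.mem_singleton _)
  obtain ⟨i, hi, u, b, hu, hb⟩ := exists_bezout (p := p) n a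
  have hy0 : ((p : ZMod (p ^ n)) ^ (n - i)) • g ⟨((a : ℤ) : ZMod (p ^ n)), hmem⟩ = 0 := by
    have h1 : ((p : ZMod (p ^ n)) ^ (n - i)) * ((a : ℤ) : ZMod (p ^ n)) = 0 := by
      rw [hb]
      push_cast
      rw [← mul_assoc, ← pow_add, Nat.sub_add_cancel hi, cast_pow_self, zero_mul]
    have h2 : ((p : ZMod (p ^ n)) ^ (n - i)) • (⟨((a : ℤ) : ZMod (p ^ n)), hmem⟩ :
        Submodule.span (ZMod (p ^ n)) {((a : ℤ) : ZMod (p ^ n))}) = 0 := by
      ext
      simpa using h1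
    rw [← map_smul, h2, map_zero]
  obtain ⟨c, hc⟩ := hQ i (n - i) (by omega) _ hy0
  refine ⟨LinearMap.toSpanSingleton _ Q ((u : ZMod (p ^ n)) • c), ?_⟩
  intro x hx
  obtain ⟨r, rfl⟩ := Submodule.mem_span_singleton.1 hx
  have h3 : (⟨r • ((a : ℤ) : ZMod (p ^ n)), hx⟩ :
      Submodule.span (ZMod (p ^ n)) {((a : ℤ) : ZMod (p ^ n))}) =
      r • ⟨((a : ℤ) : ZMod (p ^ n)), hmem⟩ := by
    ext; simp
  rw [h3, map_smul, map_smul, ← hc, LinearMap.toSpanSingleton_apply, smul_smul ((a : ℤ) : ZMod (p ^ n)),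
    ← hu]

omit hp in
theorem zmod_div_aux [hp : Fact p.Prime] (n i j : ℕ) (hij : i + j = n) (z : ZMod (p ^ n))
    (hz : ((p : ZMod (p ^ n)) ^ j) • z = 0) :
    ∃ c : ZMod (p ^ n), ((p : ZMod (p ^ n)) ^ i) • c = z := by
  obtain ⟨a, rfl⟩ := ZMod.intCast_surjective z
  have h1 : (((p : ℤ) ^ j * a : ℤ) : ZMod (p ^ n)) = 0 := by
    push_cast
    simpa using hz
  rw [ZMod.intCast_zmod_eq_zero_iff_dvd] at h1
  obtain ⟨c, hc⟩ := h1
  have hp0 : (p : ℤ) ^ j ≠ 0 := pow_ne_zero _ (by exact_mod_cast hp.out.ne_zero)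
  have h2 : a = (p : ℤ) ^ i * c := by
    apply mul_left_cancel₀ hp0
    rw [hc]
    push_cast
    rw [← mul_assoc, ← pow_add]
    congr 2
    omega
  refine ⟨(c : ZMod (p ^ n)), ?_⟩
  rw [h2]
  push_cast
  simp

/-- `ZMod (p ^ n)` is self-injective. -/
theorem baer_zmod_self (n : ℕ) : Module.Baer (ZMod (p ^ n)) (ZMod (p ^ n)) := by
  apply baer_zmod
  intro i j hij y hy
  exact zmod_div_aux n i j hij y hy

/-- Finitely supported functions to `ZMod (p ^ n)` are injective. -/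
theorem baer_zmod_finsupp (n : ℕ) (ι : Type*) :
    Module.Baer (ZMod (p ^ n)) (ι →₀ ZMod (p ^ n)) := by
  apply baer_zmod
  intro i j hij y hy
  have key : ∀ z : ZMod (p ^ n), ((p : ZMod (p ^ n)) ^ j) • z = 0 →
      ∃ c : ZMod (p ^ n), ((p : ZMod (p ^ n)) ^ i) • c = z ∧ (z = 0 → c = 0) := by
    intro z hz
    by_cases hz0 : z = 0
    · exact ⟨0, by simp [hz0], fun _ => rfl⟩
    · obtain ⟨c, hc⟩ := zmod_div_aux n i j hij z hz
      exact ⟨c, hc, fun h => absurd h hz0⟩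
  choose! c hc using key
  have hc0 : c 0 = 0 := (hc 0 (by simp)).2 rfl
  refine ⟨y.mapRange c hc0, ?_⟩
  ext k
  simp only [Finsupp.smul_apply, Finsupp.mapRange_apply]
  exact (hc (y k) (by
    have := DFunLike.congr_fun hy k
    simpa using this)).1

/-- For a nonzero element `m` of a `ZMod (p ^ (n+1))`-module there is a linear form taking the value
`p ^ n` at `m`. -/
theorem exists_form (n : ℕ) {M : Type*} [AddCommGroup M] [Module (ZMod (p ^ (n + 1))) M]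
    (m : M) (hm : m ≠ 0) :
    ∃ χ : M →ₗ[ZMod (p ^ (n + 1))] ZMod (p ^ (n + 1)), χ m = (p : ZMod (p ^ (n + 1))) ^ n := by
  have H : ∀ c : ZMod (p ^ (n + 1)), c • m = 0 →
      (RingHom.id (ZMod (p ^ (n + 1)))) c • ((p : ZMod (p ^ (n + 1))) ^ n) = 0 := by
    intro c hc
    obtain ⟨a, rfl⟩ := ZMod.intCast_surjective c
    obtain ⟨i, hi, u, b, hu, hb⟩ := exists_bezout (p := p) (n + 1) a
    rcases Nat.eq_zero_or_pos i with rfl | hipos
    · exfalso
      apply hm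
      rw [pow_zero] at hu
      have : m = ((u : ZMod (p ^ (n + 1))) * (a : ZMod (p ^ (n + 1)))) • m := by
        rw [mul_comm, ← hu, one_smul]
      rw [this, mul_smul, hc, smul_zero]
    · obtain ⟨i', rfl⟩ : ∃ i', i = i' + 1 := ⟨i - 1, by omega⟩
      simp only [RingHom.id_apply, smul_eq_mul]
      rw [hb]
      push_cast
      calc (p : ZMod (p ^ (n + 1))) ^ (i' + 1) * (b : ZMod (p ^ (n + 1))) *
            (p : ZMod (p ^ (n + 1))) ^ n
          = (p : ZMod (p ^ (n + 1))) ^ i' * (b : ZMod (p ^ (n + 1))) *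
            (p : ZMod (p ^ (n + 1))) ^ (n + 1) := by ring
        _ = 0 := by rw [cast_pow_self, mul_zero]
  let g := LinearPMap.mkSpanSingleton' m ((p : ZMod (p ^ (n + 1))) ^ n) H
  obtain ⟨χ, hχ⟩ := (baer_zmod_self (p := p) (n + 1)).extension_property
    (Submodule.span (ZMod (p ^ (n + 1))) {m}).subtype (Submodule.injective_subtype _) g.toFun
  refine ⟨χ, ?_⟩
  have := LinearMap.congr_fun hχ ⟨m, Submodule.mem_span_singleton_self m⟩
  simp only [LinearMap.comp_apply, Submodule.subtype_apply] at this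
  rw [this]
  exact LinearPMap.mkSpanSingleton'_apply_self m _ H _

/-- The homomorphism `ZMod (p ^ n) → A`, `1 ↦ x`, for `x` with `p ^ n x = 0`. -/
def fromZMod {A : Type*} [AddCommGroup A] (n : ℕ) (x : A) (hx : p ^ n • x = 0) :
    ZMod (p ^ n) →+ A :=
  ZMod.lift (p ^ n) ⟨zmultiplesHom A x, by
    show ((p ^ n : ℕ) : ℤ) • x = 0
    rw [natCast_zsmul]; exact hx⟩

omit hp in
theorem fromZMod_natCast {A : Type*} [AddCommGroup A] (n : ℕ) (x : A) (hx : p ^ n • x = 0)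
    (k : ℕ) : fromZMod (p := p) n x hx (k : ZMod (p ^ n)) = k • x := by
  have := ZMod.lift_coe (p ^ n) ⟨zmultiplesHom A x, by
    show ((p ^ n : ℕ) : ℤ) • x = 0
    rw [natCast_zsmul]; exact hx⟩ (k : ℤ)
  simpa [fromZMod] using this

omit hp in
theorem fromZMod_pow {A : Type*} [AddCommGroup A] (n : ℕ) (x : A) (hx : p ^ n • x = 0)
    (k : ℕ) : fromZMod (p := p) n x hx ((p : ZMod (p ^ n)) ^ k) = p ^ k • x := by
  have := fromZMod_natCast (p := p) n x hx (p ^ k)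
  push_cast at this
  exact this

omit hp in
/-- naturality of `fromZMod`. -/
theorem map_fromZMod {A B : Type*} [AddCommGroup A] [AddCommGroup B] (φ : A →+ B) (n : ℕ) (x : A)
    (hx : p ^ n • x = 0) (hx' : p ^ n • φ x = 0) (z : ZMod (p ^ n)) :
    φ (fromZMod (p := p) n x hx z) = fromZMod (p := p) n (φ x) hx' z := by
  obtain ⟨a, rfl⟩ := ZMod.intCast_surjective z
  simp [fromZMod]

/-- If `a ∉ p ^ (n+1) A`, then some homomorphism `A → ZMod (p ^ (n+1))` maps `a` to `p ^ n`. -/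
theorem exists_hom_zmod {A : Type*} [AddCommGroup A] (n : ℕ) (a : A)
    (ha : ¬ ∃ b : A, p ^ (n + 1) • b = a) :
    ∃ θ : A →+ ZMod (p ^ (n + 1)), θ a = (p : ZMod (p ^ (n + 1))) ^ n := by
  let S : AddSubgroup A := (nsmulAddMonoidHom (α := A) (p ^ (n + 1))).range
  let Q := A ⧸ S
  have hQ : ∀ q : Q, (p ^ (n + 1)) • q = 0 := by
    intro q
    obtain ⟨x, rfl⟩ := QuotientAddGroup.mk_surjective q
    rw [← QuotientAddGroup.mk_nsmul, QuotientAddGroup.eq_zero_iff]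
    exact ⟨x, rfl⟩
  let _ : Module (ZMod (p ^ (n + 1))) Q := AddCommGroup.zmodModule hQ
  have ha' : (QuotientAddGroup.mk a : Q) ≠ 0 := by
    intro h
    rw [QuotientAddGroup.eq_zero_iff] at h
    obtain ⟨b, hb⟩ := h
    exact ha ⟨b, hb⟩
  obtain ⟨χ, hχ⟩ := exists_form (p := p) n (QuotientAddGroup.mk a : Q) ha'
  exact ⟨χ.toAddMonoidHom.comp (QuotientAddGroup.mk' S), hχ⟩

end Baer

end Pool.Agent.Lib_MP_fa2e48_al
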