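import Mathlib
import Pool.Agent.Lib_MP_fa2e48_al.Defs
import Pool.Agent.Lib_MP_fa2e48_al.General
import Pool.Agent.Lib_MP_fa2e48_al.Inj

/-!
# Unbounded p-groups
-/

namespace Pool.Agent.Lib_MP_fa2e48_al

section Unbounded

variable {p : ℕ} [hp : Fact p.Prime] {A : Type*} [AddCommGroup A]

/-- divisibility of `a` by `p ^ n` -/
def PDiv (p n : ℕ) (a : A) : Prop := ∃ b : A, p ^ n • b = a

omit hp in
theorem PDiv.add {n : ℕ} {a b : A} (ha : PDiv p n a) (hb : PDiv p n b) : PDiv p n (a + b) := by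
  obtain ⟨c, rfl⟩ := ha
  obtain ⟨d, rfl⟩ := hb
  exact ⟨c + d, smul_add _ _ _⟩

omit hp in
theorem PDiv.neg {n : ℕ} {a : A} (ha : PDiv p n a) : PDiv p n (-a) := by
  obtain ⟨c, rfl⟩ := ha
  exact ⟨-c, smul_neg _ _⟩

omit hp in
theorem PDiv.sub {n : ℕ} {a b : A} (ha : PDiv p n a) (hb : PDiv p n b) : PDiv p n (a - b) := by
  rw [sub_eq_add_neg]; exact ha.add hb.neg

omit hp in
theorem PDiv.zero (n : ℕ) : PDiv p n (0 : A) := ⟨0, smul_zero _⟩

omit hp in
theorem PDiv.mono {m n : ℕ} (h : m ≤ n) {a : A} (ha : PDiv p n a) : PDiv p m a := by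
  obtain ⟨c, rfl⟩ := ha
  exact ⟨p ^ (n - m) • c, by rw [smul_smul, ← pow_add, Nat.add_sub_cancel' h]⟩

omit hp in
theorem PDiv.nsmul {n : ℕ} {a : A} (k : ℕ) (ha : PDiv p n a) : PDiv p n (k • a) := by
  obtain ⟨c, rfl⟩ := ha
  exact ⟨k • c, by rw [smul_comm]⟩

omit hp in
theorem PDiv.pow_smul {n : ℕ} {a : A} (k : ℕ) (ha : PDiv p n a) : PDiv p (n + k) (p ^ k • a) := by
  obtain ⟨c, rfl⟩ := ha
  exact ⟨c, by rw [smul_smul, ← pow_add, Nat.add_comm]⟩

omit hp in
theorem PDiv.map {B : Type*} [AddCommGroup B] (φ : A →+ B) {n : ℕ} {a : A} (ha : PDiv p n a) :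
    PDiv p n (φ a) := by
  obtain ⟨c, rfl⟩ := ha
  exact ⟨φ c, by rw [map_nsmul]⟩

omit hp in
theorem PDiv.sum {n : ℕ} {ι : Type*} (s : Finset ι) (y : ι → A) (h : ∀ i ∈ s, PDiv p n (y i)) :
    PDiv p n (∑ i ∈ s, y i) := by
  classical
  induction s using Finset.induction_on with
  | empty => simpa using PDiv.zero n
  | insert a s has ih =>
    rw [Finset.sum_insert has]
    exact (h a (Finset.mem_insert_self _ _)).add (ih fun i hi => h i (Finset.mem_insert_of_mem hi))

omit hp in
theorem mem_infHeight {a : A} : a ∈ infHeight p A ↔ ∀ n, PDiv p n a := Iff.rfl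

omit hp in
/-- elements of exact order `p ^ (r+1)` in an unbounded `p`-group -/
theorem exists_exact_order (hA : ∀ a : A, ∃ k : ℕ, p ^ k • a = 0)
    (hU : ∀ k : ℕ, ∃ a : A, p ^ k • a ≠ 0) (r : ℕ) :
    ∃ x : A, p ^ (r + 1) • x = 0 ∧ p ^ r • x ≠ 0 := by
  classical
  obtain ⟨a, ha⟩ := hU r
  obtain ⟨k, hk, hmin⟩ : ∃ k, p ^ k • a = 0 ∧ ∀ j < k, p ^ j • a ≠ 0 :=
    ⟨Nat.find (hA a), Nat.find_spec (hA a), fun j hj => Nat.find_min (hA a) hj⟩
  have hrk : r < k := by
    by_contra hc
    apply ha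
    have : r = (r - k) + k := by omega
    rw [this, pow_add, mul_smul, hk, smul_zero]
  refine ⟨p ^ (k - r - 1) • a, ?_, ?_⟩
  · rw [smul_smul, ← pow_add]
    have : r + 1 + (k - r - 1) = k := by omega
    rw [this, hk]
  · rw [smul_smul, ← pow_add]
    apply hmin
    omega

/-- Key fact: if all members of the sequence `Φ` of endomorphisms map `A` into `p ^ r A`, then
`f Φ ∈ p ^ r A`. -/
theorem star (hA : ∀ a : A, ∃ k : ℕ, p ^ k • a = 0) (hU : ∀ k : ℕ, ∃ a : A, p ^ k • a ≠ 0)
    (f : (ℕ → AddMonoid.End A) →ₗ[AddMonoid.End A] A) (Φ : ℕ → AddMonoid.End A) (r : ℕ)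
    (hΦ : ∀ k x, PDiv p r (Φ k x)) : PDiv p r (f Φ) := by
  rcases r with _ | n
  · exact ⟨f Φ, by simp⟩
  by_contra hc
  obtain ⟨θ, hθ⟩ := exists_hom_zmod (p := p) n (f Φ) hc
  obtain ⟨x, hx, hx'⟩ := exists_exact_order hA hU n
  let ε : AddMonoid.End A := (fromZMod (n + 1) x hx).comp θ
  have h1 : ε • f Φ = p ^ n • x := by
    show fromZMod (n + 1) x hx (θ (f Φ)) = _
    rw [hθ, fromZMod_pow]
  have h2 : ε • Φ = 0 := by
    funext k
    ext y
    show fromZMod (n + 1) x hx (θ (Φ k y)) = 0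
    obtain ⟨b, hb⟩ := hΦ k y
    rw [← hb, map_nsmul]
    have : (p ^ (n + 1)) • θ b = 0 := by
      rw [nsmul_eq_mul]
      push_cast
      rw [cast_pow_self, zero_mul]
    rw [this, map_zero]
  rw [← map_smul, h2, map_zero] at h1
  exact hx' h1.symm

/-- Splitting off the first `r` coordinates. -/
theorem split_head {R M : Type*} [Ring R] [AddCommGroup M] [Module R M] (f : (ℕ → R) →ₗ[R] M)
    (Φ : ℕ → R) (r : ℕ) :
    f Φ = ∑ n ∈ Finset.range r, Φ n • f (Pi.single n 1) + f (fun n => if n < r then 0 else Φ n) := by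
  have h : Φ = ∑ n ∈ Finset.range r, Φ n • (Pi.single n (1 : R) : ℕ → R) +
      (fun n => if n < r then 0 else Φ n) := by
    funext k
    simp only [Pi.add_apply, Finset.sum_apply, Pi.smul_apply, smul_eq_mul, Pi.single_apply,
      mul_ite, mul_one, mul_zero, Finset.sum_ite_eq, Finset.mem_range]
    by_cases h : k < r <;> simp [h]
  conv_lhs => rw [h]
  rw [map_add, map_sum]
  simp only [map_smul]

/-- Setup: homomorphisms detecting the `a n`. -/
theorem exists_detect (a : ℕ → A) (ha : ∀ n, a n ∉ infHeight p A) :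
    ∃ (h : ℕ → ℕ) (θ : ∀ n, A →+ ZMod (p ^ (h n + 1))),
      ∀ n, θ n (a n) = (p : ZMod (p ^ (h n + 1))) ^ h n := by
  have : ∀ n, ∃ (h : ℕ) (θ : A →+ ZMod (p ^ (h + 1))), θ (a n) = (p : ZMod (p ^ (h + 1))) ^ h := by
    intro n
    have h1 := ha n
    rw [mem_infHeight] at h1
    push Not at h1
    obtain ⟨m, hm⟩ := h1
    rcases m with _ | m
    · exact absurd ⟨a n, by simp⟩ hm
    · obtain ⟨θ, hθ⟩ := exists_hom_zmod (p := p) m (a n) hm
      exact ⟨m, θ, hθ⟩
  choose h θ hθ using this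
  exact ⟨h, θ, hθ⟩

omit hp in
theorem fromZMod_pdiv (n : ℕ) (x : A) (hx : p ^ n • x = 0) (m : ℕ) (hm : PDiv p m x)
    (z : ZMod (p ^ n)) : PDiv p m (fromZMod (p := p) n x hx z) := by
  obtain ⟨a, rfl⟩ := ZMod.intCast_surjective z
  obtain ⟨b, rfl⟩ := hm
  refine ⟨a • b, ?_⟩
  simp only [fromZMod, ZMod.lift_coe, zmultiplesHom_apply]
  rw [smul_comm]

/-- If `f (e n)` has finite height for all `n` and `p ^ ω A ≠ 0`, then `p ^ ω A` is not slender. -/
theorem not_slender_infHeight (hA : ∀ a : A, ∃ k : ℕ, p ^ k • a = 0)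
    (hU : ∀ k : ℕ, ∃ a : A, p ^ k • a ≠ 0)
    (f : (ℕ → AddMonoid.End A) →ₗ[AddMonoid.End A] A)
    (hf : ∀ n, f (Pi.single n 1) ∉ infHeight p A) (hne : infHeight p A ≠ ⊥) :
    ¬ IsSlender (AddMonoid.End A) (infHeight p A) := by
  obtain ⟨h, θ, hθ⟩ := exists_detect (fun n => f (Pi.single n 1)) hf
  -- a nonzero element `s` of the socle of `p ^ ω A`
  obtain ⟨s, hs, hs0, hps⟩ : ∃ s ∈ infHeight p A, s ≠ 0 ∧ p • s = 0 := by
    obtain ⟨t, ht, ht0⟩ := (Submodule.ne_bot_iff _).1 hne
    classical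
    obtain ⟨k, hk, hmin⟩ : ∃ k, p ^ k • t = 0 ∧ ∀ j < k, p ^ j • t ≠ 0 :=
      ⟨Nat.find (hA t), Nat.find_spec (hA t), fun j hj => Nat.find_min (hA t) hj⟩
    have hk0 : k ≠ 0 := by
      rintro rfl
      exact ht0 (by simpa using hk)
    refine ⟨p ^ (k - 1) • t, ?_, hmin _ (by omega), ?_⟩
    · exact nsmul_mem ht _
    · rw [← mul_smul, ← pow_succ', Nat.sub_add_cancel (by omega), hk]
  have hx : ∀ n, ∃ x : A, p ^ (h n) • x = s ∧ PDiv p n x := by
    intro n
    obtain ⟨b, hb⟩ := hs (h n + n)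
    refine ⟨p ^ n • b, ?_, ⟨b, rfl⟩⟩
    rw [smul_smul, ← pow_add, hb]
  choose x hxs hxd using hx
  have hx1 : ∀ n, p ^ (h n + 1) • x n = 0 := by
    intro n
    rw [pow_succ', mul_smul, hxs, hps]
  let ρ : ℕ → AddMonoid.End A := fun n => (fromZMod (h n + 1) (x n) (hx1 n)).comp (θ n)
  have hρ : ∀ n, ρ n • f (Pi.single n 1) = s := by
    intro n
    show fromZMod (h n + 1) (x n) (hx1 n) (θ n (f (Pi.single n 1))) = s
    rw [hθ n, fromZMod_pow, hxs]
  let g : (ℕ → AddMonoid.End A) →ₗ[AddMonoid.End A] A := f ∘ₗ rmulSeq _ ρ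
  have hg : ∀ n, g (Pi.single n 1) = s := by
    intro n
    have : rmulSeq (AddMonoid.End A) ρ (Pi.single n 1) = ρ n • (Pi.single n 1) := by
      funext k
      by_cases hk : k = n
      · subst hk; simp [rmulSeq]
      · simp [rmulSeq, hk]
    show f (rmulSeq _ ρ (Pi.single n 1)) = s
    rw [this, map_smul, hρ]
  have hmem : ∀ φ, g φ ∈ infHeight p A := by
    intro φ r
    rw [split_head g φ r]
    refine PDiv.add ?_ ?_
    · refine PDiv.sum _ _ fun n _ => ?_
      rw [hg n]
      exact PDiv.map (φ n) (hs r)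
    · show PDiv p r (f (rmulSeq _ ρ (fun n => if n < r then 0 else φ n)))
      apply star hA hU
      intro k y
      by_cases hk : k < r
      · simp only [rmulSeq, LinearMap.coe_mk, AddHom.coe_mk, hk, if_true, zero_mul]
        exact PDiv.zero r
      · simp only [rmulSeq, LinearMap.coe_mk, AddHom.coe_mk, hk, if_false]
        show PDiv p r (φ k (ρ k y))
        apply PDiv.map (φ k)
        apply PDiv.mono (n := k) (by omega)
        exact fromZMod_pdiv _ _ (hx1 k) _ (hxd k) _
  intro hsl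
  have := hsl (LinearMap.codRestrict (infHeight p A) g hmem)
  have h2 : {n : ℕ | (LinearMap.codRestrict (infHeight p A) g hmem) (Pi.single n 1) ≠ 0} =
      Set.univ := by
    ext n
    simp only [ne_eq, Set.mem_ofPred_eq, Set.mem_univ, iff_true]
    intro hc
    have := congrArg Subtype.val hc
    simp only [LinearMap.codRestrict_apply, hg, ZeroMemClass.coe_zero] at this
    exact hs0 this
  rw [h2] at this
  exact Set.infinite_univ this

/-- Socle series converge, with rates. -/
theorem socle_series (hA : ∀ a : A, ∃ k : ℕ, p ^ k • a = 0)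
    (hU : ∀ k : ℕ, ∃ a : A, p ^ k • a ≠ 0)
    (f : (ℕ → AddMonoid.End A) →ₗ[AddMonoid.End A] A)
    (hf : ∀ n, f (Pi.single n 1) ∉ infHeight p A)
    (y : ℕ → A) (hy : ∀ k, p • y k = 0) (hyd : ∀ k, PDiv p k (y k)) :
    ∃ W : A, ∀ k, PDiv p k (W - ∑ i ∈ Finset.range k, y i) := by
  obtain ⟨h, θ, hθ⟩ := exists_detect (fun n => f (Pi.single n 1)) hf
  -- block boundaries
  let K : ℕ → ℕ := fun j => ∑ i ∈ Finset.range (j + 1), (h i + 1)
  have hKsucc : ∀ j, K (j + 1) = K j + (h (j + 1) + 1) := fun j => by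
    simp only [K]; rw [Finset.sum_range_succ]
  have hKmono : Monotone K := monotone_nat_of_le_succ fun j => by rw [hKsucc]; omega
  have hKge : ∀ j, h j + j ≤ K j := by
    intro j
    have : ∀ j, j ≤ ∑ i ∈ Finset.range j, (h i + 1) := by
      intro j
      induction j with
      | zero => simp
      | succ j ih => rw [Finset.sum_range_succ]; omega
    have h1 := this j
    simp only [K]
    rw [Finset.sum_range_succ]
    omega
  -- blocks
  let Y : ℕ → A := fun j => ∑ i ∈ Finset.Ico (K j) (K (j + 1)), y i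
  have hYd : ∀ j, PDiv p (h j + j) (Y j) := by
    intro j
    refine PDiv.sum _ _ fun i hi => ?_
    rw [Finset.mem_Ico] at hi
    exact (hyd i).mono ((hKge j).trans hi.1)
  have hYp : ∀ j, p • Y j = 0 := by
    intro j
    simp only [Y]
    rw [Finset.smul_sum]
    exact Finset.sum_eq_zero fun i _ => hy i
  have hx : ∀ j, ∃ x : A, p ^ (h j) • x = Y j ∧ PDiv p j x := by
    intro j
    obtain ⟨b, hb⟩ := hYd j
    exact ⟨p ^ j • b, by rw [smul_smul, ← pow_add, hb], ⟨b, rfl⟩⟩
  choose x hxY hxd using hx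
  have hx1 : ∀ n, p ^ (h n + 1) • x n = 0 := by
    intro n
    rw [pow_succ', mul_smul, hxY, hYp]
  let ρ : ℕ → AddMonoid.End A := fun n => (fromZMod (h n + 1) (x n) (hx1 n)).comp (θ n)
  have hρ : ∀ n, ρ n • f (Pi.single n 1) = Y n := by
    intro n
    show fromZMod (h n + 1) (x n) (hx1 n) (θ n (f (Pi.single n 1))) = _
    rw [hθ n, fromZMod_pow, hxY]
  have hW' : ∀ J, PDiv p J (f ρ - ∑ j ∈ Finset.range J, Y j) := by
    intro J
    rw [split_head f ρ J]
    have h1 : ∑ n ∈ Finset.range J, ρ n • f (Pi.single n 1) = ∑ j ∈ Finset.range J, Y j :=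
      Finset.sum_congr rfl fun n _ => hρ n
    rw [h1, add_sub_cancel_left]
    apply star hA hU
    intro k z
    by_cases hk : k < J
    · simp only [hk, if_true]
      exact PDiv.zero J
    · simp only [hk, if_false]
      apply PDiv.mono (n := k) (by omega)
      exact fromZMod_pdiv _ _ (hx1 k) _ (hxd k) _
  have hblock : ∀ J, ∑ j ∈ Finset.range J, Y j =
      ∑ i ∈ Finset.range (K J), y i - ∑ i ∈ Finset.range (K 0), y i := by
    intro J
    induction J with
    | zero => simp
    | succ J ih =>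
      rw [Finset.sum_range_succ, ih]
      simp only [Y]
      rw [Finset.sum_Ico_eq_sub _ (hKmono (Nat.le_succ J))]
      abel
  refine ⟨f ρ + ∑ i ∈ Finset.range (K 0), y i, fun k => ?_⟩
  have h1 : PDiv p k (f ρ + ∑ i ∈ Finset.range (K 0), y i - ∑ i ∈ Finset.range (K k), y i) := by
    have := hW' k
    rw [hblock] at this
    convert this using 1
    abel
  have hkK : k ≤ K k := by have := hKge k; omega
  have h2 : PDiv p k (∑ i ∈ Finset.range (K k), y i - ∑ i ∈ Finset.range k, y i) := by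
    rw [← Finset.sum_Ico_eq_sub _ hkK]
    refine PDiv.sum _ _ fun i hi => ?_
    rw [Finset.mem_Ico] at hi
    exact (hyd i).mono hi.1
  have := h1.add h2
  convert this using 1
  abel

omit hp in
/-- From the socle to bounded sequences. -/
theorem conv_of_socle
    (hS : ∀ y : ℕ → A, (∀ k, p • y k = 0) → (∀ k, PDiv p k (y k)) →
      ∃ W : A, ∀ k, PDiv p k (W - ∑ i ∈ Finset.range k, y i))
    (k : ℕ) : ∀ z : ℕ → A, (∀ i, p ^ k • z i = 0) → (∀ i, PDiv p i (z (i + 1) - z i)) →
      ∃ x : A, ∀ i, PDiv p i (x - z i) := by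
  induction k with
  | zero =>
    intro z hz _
    refine ⟨0, fun i => ?_⟩
    have := hz i
    rw [pow_zero, one_smul] at this
    rw [this, sub_zero]
    exact PDiv.zero i
  | succ k ih =>
    intro z hz hzd
    let y : ℕ → A := fun i => p ^ k • (z (i + 1) - z i)
    have hy : ∀ i, p • y i = 0 := by
      intro i
      simp only [y]
      rw [smul_smul, ← pow_succ', smul_sub, hz, hz, sub_zero]
    have hyd' : ∀ i, PDiv p (i + k) (y i) := fun i => (hzd i).pow_smul k
    obtain ⟨W, hW⟩ := hS y hy fun i => (hyd' i).mono (by omega)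
    have hsum : ∀ m, ∑ i ∈ Finset.range m, y i = p ^ k • (z m - z 0) := by
      intro m
      simp only [y]
      rw [← Finset.smul_sum, Finset.sum_range_sub]
    have hW' : ∀ m, PDiv p (m + k) (W - ∑ i ∈ Finset.range m, y i) := by
      intro m
      have h1 := hW (m + k)
      have h2 : PDiv p (m + k)
          (∑ i ∈ Finset.range (m + k), y i - ∑ i ∈ Finset.range m, y i) := by
        rw [← Finset.sum_Ico_eq_sub _ (Nat.le_add_right m k)]
        refine PDiv.sum _ _ fun i hi => ?_
        rw [Finset.mem_Ico] at hi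
        exact (hyd' i).mono (by omega)
      have := h1.add h2
      convert this using 1
      abel
    have hc : ∀ m, ∃ c : A, p ^ (m + k) • c = W + p ^ k • z 0 - p ^ k • z m := by
      intro m
      obtain ⟨c, hc⟩ := hW' m
      refine ⟨c, ?_⟩
      rw [hc, hsum, smul_sub]
      abel
    choose c hc using hc
    let x0 : A := z 0 + c 0
    have hx0 : p ^ k • x0 = W + p ^ k • z 0 := by
      have := hc 0
      rw [Nat.zero_add] at this
      simp only [x0]
      rw [smul_add, this]
      abel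
    let z' : ℕ → A := fun m => x0 - z m - p ^ m • c m
    have hz' : ∀ m, p ^ k • z' m = 0 := by
      intro m
      simp only [z']
      rw [smul_sub, smul_sub, hx0, smul_smul, ← pow_add, Nat.add_comm k m, hc m]
      abel
    have hz'd : ∀ m, PDiv p m (z' (m + 1) - z' m) := by
      intro m
      have h1 := (hzd m).neg
      have h2 : PDiv p m (p ^ (m + 1) • c (m + 1)) := PDiv.mono (Nat.le_succ m) ⟨_, rfl⟩
      have h3 : PDiv p m (p ^ m • c m) := ⟨_, rfl⟩
      have := (h1.sub h2).add h3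
      convert this using 1
      simp only [z']
      abel
    obtain ⟨x', hx'⟩ := ih z' hz' hz'd
    refine ⟨x0 - x', fun m => ?_⟩
    have h3 : PDiv p m (p ^ m • c m) := ⟨_, rfl⟩
    have := h3.sub (hx' m)
    convert this using 1
    simp only [z']
    abel

omit hp in
theorem isTorsionComplete_of_conv (hsep : infHeight p A = ⊥)
    (hC : ∀ k : ℕ, ∀ z : ℕ → A, (∀ i, p ^ k • z i = 0) → (∀ i, PDiv p i (z (i + 1) - z i)) →
      ∃ x : A, ∀ i, PDiv p i (x - z i)) : IsTorsionComplete p A := by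
  refine ⟨?_, ?_⟩
  · intro a ha
    have : a ∈ infHeight p A := ha
    rw [hsep] at this
    simpa using this
  · intro k x hx hcauchy
    choose N hN using hcauchy
    let M : ℕ → ℕ := fun n => ∑ m ∈ Finset.range (n + 1), N m
    have hMN : ∀ n, N n ≤ M n := fun n => by
      simp only [M]; rw [Finset.sum_range_succ]; omega
    have hMM : ∀ n, N n ≤ M (n + 1) := fun n => by
      have := hMN n
      simp only [M] at this ⊢
      rw [Finset.sum_range_succ _ (n + 1)]; omega
    obtain ⟨a, ha⟩ := hC k (fun n => x (M n)) (fun i => hx _) (fun n => hN n _ _ (hMM n) (hMN n))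
    refine ⟨a, fun n => ⟨N n, fun i hi => ?_⟩⟩
    have h1 : PDiv p n (x i - x (M n)) := hN n _ _ hi (hMN n)
    have h2 := (ha n).neg
    have := h1.add h2
    show PDiv p n (x i - a)
    convert this using 1
    abel

omit hp in
/-- The limit module structure: torsion-complete unbounded groups are not slender. -/
theorem not_slender_of_torsionComplete (hA : ∀ a : A, ∃ k : ℕ, p ^ k • a = 0)
    (hU : ∀ k : ℕ, ∃ a : A, p ^ k • a ≠ 0) (hT : IsTorsionComplete p A) :
    ¬ IsSlender (AddMonoid.End A) A := by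
  choose x hx hx' using exists_exact_order hA hU
  let a : ℕ → A := fun n => p ^ n • x n
  have ha : ∀ n, p • a n = 0 := fun n => by
    simp only [a]; rw [smul_smul, ← pow_succ', hx]
  have ha0 : ∀ n, a n ≠ 0 := hx'
  let z : (ℕ → AddMonoid.End A) → ℕ → A := fun φ m => ∑ i ∈ Finset.range m, φ i (a i)
  have hz : ∀ φ m, p • z φ m = 0 := by
    intro φ m
    simp only [z]
    rw [Finset.smul_sum]
    refine Finset.sum_eq_zero fun i _ => ?_
    rw [← map_nsmul, ha, map_zero]
  have hlim : ∀ φ, ∃ L : A, ∀ n : ℕ, ∃ N : ℕ, ∀ i : ℕ, N ≤ i → PDiv p n (z φ i - L) := by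
    intro φ
    refine hT.2 1 (z φ) (fun i => by rw [pow_one]; exact hz φ i) ?_
    intro n
    refine ⟨n, fun i j hi hj => ?_⟩
    have key : ∀ m, n ≤ m → PDiv p n (z φ m - z φ n) := by
      intro m hm
      simp only [z]
      rw [← Finset.sum_Ico_eq_sub _ hm]
      refine PDiv.sum _ _ fun i hi => ?_
      rw [Finset.mem_Ico] at hi
      exact PDiv.mono hi.1 (PDiv.map (φ i) ⟨_, rfl⟩)
    have := (key i hi).sub (key j hj)
    obtain ⟨b, hb⟩ := this
    exact ⟨b, by rw [hb]; abel⟩
  choose L hL using hlim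
  have huniq : ∀ (w : ℕ → A) (u v : A), (∀ n : ℕ, ∃ N : ℕ, ∀ i : ℕ, N ≤ i → PDiv p n (w i - u)) →
      (∀ n : ℕ, ∃ N : ℕ, ∀ i : ℕ, N ≤ i → PDiv p n (w i - v)) → u = v := by
    intro w u v hu hv
    rw [← sub_eq_zero]
    apply hT.1
    intro n
    obtain ⟨N1, h1⟩ := hu n
    obtain ⟨N2, h2⟩ := hv n
    have := (h2 (max N1 N2) (le_max_right _ _)).sub (h1 (max N1 N2) (le_max_left _ _))
    obtain ⟨b, hb⟩ := this
    exact ⟨b, by rw [hb]; abel⟩
  let f : (ℕ → AddMonoid.End A) →ₗ[AddMonoid.End A] A :=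
    { toFun := L
      map_add' := by
        intro φ ψ
        refine huniq (z (φ + ψ)) _ _ (hL _) ?_
        intro n
        obtain ⟨N1, h1⟩ := hL φ n
        obtain ⟨N2, h2⟩ := hL ψ n
        refine ⟨max N1 N2, fun i hi => ?_⟩
        have := (h1 i ((le_max_left _ _).trans hi)).add (h2 i ((le_max_right _ _).trans hi))
        convert this using 1
        have hzz : z (φ + ψ) i = z φ i + z ψ i := by
          simp only [z, Pi.add_apply]
          rw [← Finset.sum_add_distrib]
          rfl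
        rw [hzz]
        abel
      map_smul' := by
        intro c φ
        refine huniq (z (c • φ)) _ _ (hL _) ?_
        intro n
        obtain ⟨N1, h1⟩ := hL φ n
        refine ⟨N1, fun i hi => ?_⟩
        have := PDiv.map c (h1 i hi)
        convert this using 1
        have hzz : z (c • φ) i = c (z φ i) := by
          simp only [z, Pi.smul_apply]
          rw [map_sum]
          rfl
        rw [hzz, map_sub]
        rfl }
  have hf : ∀ n, f (Pi.single n 1) = a n := by
    intro n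
    refine huniq (z (Pi.single n 1)) _ _ (hL _) ?_
    intro m
    refine ⟨n + 1, fun i hi => ?_⟩
    have : z (Pi.single n 1) i = a n := by
      simp only [z]
      rw [Finset.sum_eq_single n]
      · simp
      · intro j _ hj
        simp [hj]
      · intro hn
        exact absurd (Finset.mem_range.2 (by omega)) hn
    rw [this, sub_self]
    exact PDiv.zero m
  intro hsl
  have h1 := hsl f
  have h2 : {n : ℕ | f (Pi.single n 1) ≠ 0} = Set.univ := by
    ext n
    simp only [ne_eq, Set.mem_ofPred_eq, Set.mem_univ, iff_true]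
    rw [hf n]
    exact ha0 n
  rw [h2] at h1
  exact Set.infinite_univ h1

/-- Reindexing along an injection. -/
theorem exists_reindex {R M : Type*} [Ring R] [AddCommGroup M] [Module R M] (N : Submodule R M)
    (f : (ℕ → R) →ₗ[R] M) (hf : {n : ℕ | f (Pi.single n 1) ∉ N}.Infinite) :
    ∃ g : (ℕ → R) →ₗ[R] M, ∀ n, g (Pi.single n 1) ∉ N := by
  classical
  let u : ℕ → ℕ := Nat.nth (fun n => f (Pi.single n 1) ∉ N)
  have hu : Function.Injective u := Nat.nth_injective hf
  have hmem : ∀ n, f (Pi.single (u n) 1) ∉ N := fun n => Nat.nth_mem_of_infinite hf n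
  refine ⟨f ∘ₗ Function.ExtendByZero.linearMap R u, fun n => ?_⟩
  have : Function.ExtendByZero.linearMap R u (Pi.single n 1) = (Pi.single (u n) 1 : ℕ → R) := by
    funext k
    show Function.extend u (Pi.single n (1 : R)) 0 k = _
    by_cases hk : ∃ m, u m = k
    · obtain ⟨m, rfl⟩ := hk
      rw [hu.extend_apply]
      by_cases hmn : m = n
      · subst hmn; simp
      · have : u m ≠ u n := fun h => hmn (hu h)
        simp [hmn, this]
    · rw [Function.extend_apply' _ _ _ hk]
      have : k ≠ u n := fun h => hk ⟨n, h.symm⟩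
      simp [this]
  rw [LinearMap.comp_apply, this]
  exact hmem n

/-- Unbounded separable case. -/
theorem slender_iff_separable (hA : ∀ a : A, ∃ k : ℕ, p ^ k • a = 0)
    (hU : ∀ k : ℕ, ∃ a : A, p ^ k • a ≠ 0) (hsep : infHeight p A = ⊥) :
    IsSlender (AddMonoid.End A) A ↔ ¬ IsTorsionComplete p A := by
  constructor
  · intro h hT
    exact not_slender_of_torsionComplete hA hU hT h
  · intro hT f
    by_contra hf
    apply hT
    obtain ⟨g, hg⟩ := exists_reindex (infHeight p A) f (by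
      rw [hsep]
      simpa using hf)
    apply isTorsionComplete_of_conv hsep
    apply conv_of_socle
    exact socle_series hA hU g hg

/-- The case `p ^ ω A ≠ 0`. -/
theorem slender_iff_infHeight (hA : ∀ a : A, ∃ k : ℕ, p ^ k • a = 0)
    (hne : infHeight p A ≠ ⊥) :
    IsSlender (AddMonoid.End A) A ↔ IsSlender (AddMonoid.End A) (infHeight p A) := by
  have hU : ∀ k : ℕ, ∃ a : A, p ^ k • a ≠ 0 := by
    by_contra hc
    push Not at hc
    obtain ⟨k, hk⟩ := hc
    apply hne
    rw [Submodule.eq_bot_iff]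
    intro a ha
    obtain ⟨b, hb⟩ := ha k
    rw [← hb, hk]
  constructor
  · intro h
    exact h.submodule _
  · intro h
    apply isSlender_of_submodule (infHeight p A) ?_ h
    intro f
    by_contra hf
    obtain ⟨g, hg⟩ := exists_reindex (infHeight p A) f hf
    exact not_slender_infHeight hA hU g hg hne h

end Unbounded

end Pool.Agent.Lib_MP_fa2e48_al
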