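import Mathlib
import Pool.Agent.Lib_MP_fa2e48_al.Defs
import Pool.Agent.Lib_MP_fa2e48_al.General
import Pool.Agent.Lib_MP_fa2e48_al.Unbounded

/-!
# Slenderness from a shift element of the ring
-/

namespace Pool.Agent.Lib_MP_fa2e48_al

section Shift

variable {R M : Type*} [Ring R] [AddCommGroup M] [Module R M]

theorem no_map_of_shift (H : Set M) (hH : H.Countable) (τ : R) (hτ : ∀ x : M, τ • x ∈ H)
    (l : M → ℕ) (hl : ∀ x ∈ H, x ≠ 0 → τ • x ≠ 0 ∧ l x < l (τ • x))
    (f : (ℕ → R) →ₗ[R] M) (hf : ∀ n, f (Pi.single n 1) ∈ H ∧ f (Pi.single n 1) ≠ 0) : False := by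
  classical
  have hpow : ∀ (k : ℕ) (x : M), x ∈ H → x ≠ 0 →
      τ ^ k • x ∈ H ∧ τ ^ k • x ≠ 0 ∧ l x + k ≤ l (τ ^ k • x) := by
    intro k
    induction k with
    | zero => intro x hx hx0; simpa using ⟨hx, hx0⟩
    | succ k ih =>
      intro x hx hx0
      obtain ⟨h1, h2, h3⟩ := ih x hx hx0
      obtain ⟨h4, h5⟩ := hl _ h1 h2
      rw [pow_succ', mul_smul]
      exact ⟨hτ _, h4, by omega⟩
  have hdiv : ∀ (m : ℕ) (x y : M), x ≠ 0 → x = τ ^ (m + 1) • y → m ≤ l x := by
    intro m x y hx hxy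
    rw [pow_succ, mul_smul] at hxy
    have h1 : τ • y ≠ 0 := by
      intro h; rw [h, smul_zero] at hxy; exact hx hxy
    have := (hpow m (τ • y) (hτ y) h1).2.2
    rw [← hxy] at this
    omega
  let a : ℕ → M := fun n => f (Pi.single n 1)
  let m : ℕ → ℕ := fun k => Nat.rec 0 (fun k mk => mk + l (τ ^ (mk + 1) • a k) + 1) k
  have hm : ∀ k, m (k + 1) = m k + l (τ ^ (m k + 1) • a k) + 1 := fun k => rfl
  have hmono : Monotone m := monotone_nat_of_le_succ fun k => by rw [hm]; omega
  -- the elements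
  let w : Set ℕ → (ℕ → R) := fun e k => if k ∈ e then τ ^ (m k + 1) else 0
  have hwH : ∀ e, f (w e) ∈ H := by
    intro e
    have : w e = τ • (fun k => if k ∈ e then τ ^ (m k) else 0 : ℕ → R) := by
      funext k
      simp only [w, Pi.smul_apply, smul_eq_mul]
      by_cases hk : k ∈ e
      · simp [hk, pow_succ']
      · simp [hk]
    rw [this, map_smul]
    exact hτ _
  -- key: differences
  have key : ∀ (e e' : Set ℕ) (k : ℕ), (∀ j < k, (j ∈ e ↔ j ∈ e')) → k ∈ e → k ∉ e' →
      f (w e) ≠ f (w e') := by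
    intro e e' k hlt hk hk' heq
    have h1 : w e - w e' = τ ^ (m k + 1) • (Pi.single k 1 : ℕ → R) +
        τ ^ (m (k + 1) + 1) • (fun j => if k < j then
          ((if j ∈ e then τ ^ (m j - m (k + 1)) else 0) -
            (if j ∈ e' then τ ^ (m j - m (k + 1)) else 0)) else 0 : ℕ → R) := by
      funext j
      simp only [w, Pi.sub_apply, Pi.add_apply, Pi.smul_apply, smul_eq_mul]
      rcases lt_trichotomy j k with hj | hj | hj
      · have h2 := hlt j hj
        have h3 : ¬ (k < j) := by omega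
        have h4 : j ≠ k := by omega
        by_cases h5 : j ∈ e
        · simp [h5, h2.1 h5, h3, h4]
        · have h6 : j ∉ e' := fun h => h5 (h2.2 h)
          simp [h5, h6, h3, h4]
      · subst hj
        simp [hk, hk']
      · have h3 : j ≠ k := by omega
        have h4 : m (k + 1) ≤ m j := hmono hj
        have h5 : τ ^ (m (k + 1) + 1) * τ ^ (m j - m (k + 1)) = τ ^ (m j + 1) := by
          rw [← pow_add]; congr 1; omega
        rw [if_pos hj, mul_sub, mul_ite, mul_ite, h5, mul_zero]
        simp [h3]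
    have h2 : τ ^ (m k + 1) • a k = τ ^ (m (k + 1) + 1) • (- f (fun j => if k < j then
          ((if j ∈ e then τ ^ (m j - m (k + 1)) else 0) -
            (if j ∈ e' then τ ^ (m j - m (k + 1)) else 0)) else 0 : ℕ → R)) := by
      have h3 := congrArg f h1
      rw [map_sub, heq, sub_self, map_add, map_smul, map_smul] at h3
      rw [smul_neg]
      exact eq_neg_of_add_eq_zero_left h3.symm
    have h4 := (hpow (m k + 1) (a k) (hf k).1 (hf k).2).2.1
    have h5 := hdiv _ _ _ h4 h2
    rw [hm] at h5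
    omega
  have hinj : Function.Injective (fun e : Set ℕ => (⟨f (w e), hwH e⟩ : H)) := by
    intro e e' hee
    have heq : f (w e) = f (w e') := congrArg Subtype.val hee
    by_contra hne
    have hex : ∃ k, ¬ (k ∈ e ↔ k ∈ e') := by
      by_contra hcon
      push Not at hcon
      exact hne (Set.ext fun k => by have := hcon k; tauto)
    obtain ⟨k, hk, hmin⟩ : ∃ k, ¬ (k ∈ e ↔ k ∈ e') ∧ ∀ j < k, (j ∈ e ↔ j ∈ e') :=
      ⟨Nat.find hex, Nat.find_spec hex, fun j hj => by
        have := Nat.find_min hex hj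
        tauto⟩
    by_cases h1 : k ∈ e
    · have h2 : k ∉ e' := fun h => hk ⟨fun _ => h, fun _ => h1⟩
      exact key e e' k hmin h1 h2 heq
    · have h2 : k ∈ e' := by
        by_contra h2
        exact hk ⟨fun h => absurd h h1, fun h => absurd h h2⟩
      exact key e' e k (fun j hj => (hmin j hj).symm) h2 h1 heq.symm
  have hHc : Countable H := hH.to_subtype
  obtain ⟨g, hg⟩ := hHc.exists_injective_nat
  exact Function.cantor_injective (fun e : Set ℕ => g ⟨f (w e), hwH e⟩) (hg.comp hinj)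

end Shift

end Pool.Agent.Lib_MP_fa2e48_al
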