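import Mathlib
import Pool.Agent.Lib_MP_fa2e48_al.Defs
import Pool.Agent.Lib_MP_fa2e48_al.General
import Pool.Agent.Lib_MP_fa2e48_al.Unbounded
import Pool.Agent.Lib_MP_fa2e48_al.Tower
import Pool.Agent.Lib_MP_fa2e48_al.Extend
import Pool.Agent.Lib_MP_fa2e48_al.Chain
import Pool.Agent.Lib_MP_fa2e48_al.Shift

/-!
# Direct sums of countable `p`-groups
-/

namespace Pool.Agent.Lib_MP_fa2e48_al

section DSC

variable {p : ℕ} [hp : Fact p.Prime] {G : Type*} [AddCommGroup G]

omit hp in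
/-- In a `p`-group without nonzero finite fully invariant subgroups all levels of nonzero elements
have infinite socle. -/
theorem infinite_socle_level (hG : ∀ g : G, ∃ k : ℕ, p ^ k • g = 0)
    (hF : ∀ N : AddSubgroup G, (∀ φ : AddMonoid.End G, ∀ x ∈ N, φ x ∈ N) → (N : Set G).Finite →
      N = ⊥) (x : G) (hx : x ≠ 0) : {v : G | v ∈ level p x ∧ p • v = 0}.Infinite := by
  intro hfin
  let N : AddSubgroup G :=
    { carrier := {v : G | v ∈ level p x ∧ p • v = 0}
      add_mem' := fun ha hb => ⟨add_mem ha.1 hb.1, by rw [smul_add, ha.2, hb.2, add_zero]⟩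
      zero_mem' := ⟨zero_mem _, smul_zero _⟩
      neg_mem' := fun ha => ⟨neg_mem ha.1, by rw [smul_neg, ha.2, neg_zero]⟩ }
  have hN : N = ⊥ := hF N (fun φ v hv => ⟨(level_ulmSub x).fullyInvariant φ v hv.1, by
    rw [← map_nsmul, hv.2, map_zero]⟩) hfin
  classical
  obtain ⟨k, hk, hmin⟩ : ∃ k, p ^ k • x = 0 ∧ ∀ j < k, p ^ j • x ≠ 0 :=
    ⟨Nat.find (hG x), Nat.find_spec (hG x), fun j hj => Nat.find_min (hG x) hj⟩
  have hk0 : k ≠ 0 := by
    rintro rfl
    exact hx (by simpa using hk)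
  have h1 : p ^ (k - 1) • x ∈ N := by
    refine ⟨nsmul_mem (mem_level x) _, ?_⟩
    rw [← mul_smul, ← pow_succ', Nat.sub_add_cancel (by omega), hk]
  rw [hN, AddSubgroup.mem_bot] at h1
  exact hmin _ (by omega) h1

variable {ι : Type*} {A : ι → Type*} [∀ i, AddCommGroup (A i)]

/-- The elements supported in `J`. -/
def suppIn (ψ : G ≃+ Π₀ i, A i) (J : Set ι) : AddSubgroup G where
  carrier := {x | ∀ i, i ∉ J → ψ x i = 0}
  add_mem' := fun ha hb i hi => by simp [ha i hi, hb i hi]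
  zero_mem' := fun i _ => by simp
  neg_mem' := fun ha i hi => by simp [ha i hi]

theorem mem_suppIn (ψ : G ≃+ Π₀ i, A i) (J : Set ι) (x : G) :
    x ∈ suppIn ψ J ↔ ∀ i, i ∉ J → ψ x i = 0 := Iff.rfl

theorem suppIn_mono (ψ : G ≃+ Π₀ i, A i) {J K : Set ι} (h : J ⊆ K) : suppIn ψ J ≤ suppIn ψ K :=
  fun _ hx i hi => hx i fun hi' => hi (h hi')

theorem suppIn_countable [∀ i, Countable (A i)] (ψ : G ≃+ Π₀ i, A i) (J : Set ι)
    (hJ : J.Countable) : (suppIn ψ J : Set G).Countable := by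
  classical
  have hJc : Countable J := hJ.to_subtype
  have hc : Countable (Π₀ i : J, A (i : ι)) := inferInstance
  let F : (suppIn ψ J) → (Π₀ i : J, A (i : ι)) := fun x => DFinsupp.subtypeDomain (· ∈ J) (ψ x)
  have hF : Function.Injective F := by
    intro x y hxy
    apply Subtype.ext
    apply ψ.injective
    ext i
    by_cases hi : i ∈ J
    · have := DFunLike.congr_fun hxy ⟨i, hi⟩
      simpa [F] using this
    · rw [x.2 i hi, y.2 i hi]
  exact Set.countable_coe_iff.1 hF.countable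

/-- The projection onto `suppIn ψ J`. -/
noncomputable def projOn (ψ : G ≃+ Π₀ i, A i) (J : Set ι) : AddMonoid.End G :=
  letI : DecidablePred (· ∈ J) := Classical.decPred _
  (ψ.symm.toAddMonoidHom.comp
    ((DFinsupp.filterAddMonoidHom A (· ∈ J)).comp ψ.toAddMonoidHom) : G →+ G)

theorem projOn_mem (ψ : G ≃+ Π₀ i, A i) (J : Set ι) (x : G) : projOn ψ J x ∈ suppIn ψ J := by
  classical
  intro i hi
  have : projOn ψ J x = ψ.symm (DFinsupp.filter (· ∈ J) (ψ x)) := by
    unfold projOn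
    show ψ.symm (DFinsupp.filter (· ∈ J) (ψ x)) = _
    congr
  rw [this, AddEquiv.apply_symm_apply, DFinsupp.filter_apply, if_neg hi]

theorem projOn_eq (ψ : G ≃+ Π₀ i, A i) (J : Set ι) (x : G) (hx : x ∈ suppIn ψ J) :
    projOn ψ J x = x := by
  classical
  have : projOn ψ J x = ψ.symm (DFinsupp.filter (· ∈ J) (ψ x)) := by
    unfold projOn
    show ψ.symm (DFinsupp.filter (· ∈ J) (ψ x)) = _
    congr
  rw [this]
  apply ψ.injective
  rw [AddEquiv.apply_symm_apply]
  ext i
  rw [DFinsupp.filter_apply]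
  by_cases hi : i ∈ J
  · rw [if_pos hi]
  · rw [if_neg hi, hx i hi]

theorem exists_supp (ψ : G ≃+ Π₀ i, A i) (x : G) :
    ∃ F : Set ι, F.Finite ∧ x ∈ suppIn ψ F :=
  ⟨{i | ψ x i ≠ 0}, DFinsupp.finite_support _, fun i hi => by simpa using hi⟩

/-- Direct sums of countable `p`-groups without nonzero finite fully invariant subgroups are
slender over their endomorphism rings. -/
theorem slender_of_dsc [∀ i, Countable (A i)] (hG : ∀ g : G, ∃ k : ℕ, p ^ k • g = 0)
    (ψ : G ≃+ Π₀ i, A i)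
    (hF : ∀ N : AddSubgroup G, (∀ φ : AddMonoid.End G, ∀ x ∈ N, φ x ∈ N) → (N : Set G).Finite →
      N = ⊥) : IsSlender (AddMonoid.End G) G := by
  intro f
  by_contra hf
  obtain ⟨g, hg⟩ := exists_reindex (⊥ : Submodule (AddMonoid.End G) G) f (by simpa using hf)
  have hg0 : ∀ n, g (Pi.single n 1) ≠ 0 := fun n => by simpa using hg n
  -- countable infinite subsets of the socles
  have hU : ∀ x : G, ∃ U : Set G, U.Countable ∧ (x ≠ 0 → U.Infinite) ∧
      ∀ v ∈ U, v ∈ level p x ∧ p • v = 0 := by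
    intro x
    by_cases hx : x = 0
    · exact ⟨∅, Set.countable_empty, fun h => absurd hx h, fun v hv => absurd hv (Set.notMem_empty v)⟩
    · have h1 := infinite_socle_level hG hF x hx
      refine ⟨Set.range (fun n => (h1.natEmbedding _ n : G)), Set.countable_range _, fun _ => ?_, ?_⟩
      · exact Set.infinite_range_of_injective
          (Subtype.val_injective.comp (h1.natEmbedding _).injective)
      · rintro _ ⟨n, rfl⟩
        exact (h1.natEmbedding _ n).2
  choose U hUc hUi hUm using hU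
  choose F hFf hFm using exists_supp ψ
  let T : Set ι → Set ι := fun J => J ∪ ⋃ x ∈ (suppIn ψ J : Set G), ⋃ v ∈ U x, F v
  have hT : ∀ J : Set ι, J.Countable → (T J).Countable := by
    intro J hJ
    refine hJ.union ?_
    refine (suppIn_countable ψ J hJ).biUnion fun x _ => ?_
    exact (hUc x).biUnion fun v _ => (hFf v).countable
  let J0 : Set ι := ⋃ n : ℕ, F (g (Pi.single n 1))
  have hJ0 : J0.Countable := Set.countable_iUnion fun n => (hFf _).countable
  let Jn : ℕ → Set ι := fun n => Nat.rec J0 (fun _ J => T J) n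
  have hJsucc : ∀ n, Jn (n + 1) = T (Jn n) := fun n => rfl
  have hJnc : ∀ n, (Jn n).Countable := by
    intro n
    induction n with
    | zero => exact hJ0
    | succ n ih => rw [hJsucc]; exact hT _ ih
  have hJmono : Monotone Jn := monotone_nat_of_le_succ fun n => by
    rw [hJsucc]; exact Set.subset_union_left
  let J : Set ι := ⋃ n, Jn n
  have hJc : J.Countable := Set.countable_iUnion hJnc
  have hmemJ : ∀ x ∈ suppIn ψ J, ∃ n, x ∈ suppIn ψ (Jn n) := by
    intro x hx
    have hfin : {i | ψ x i ≠ 0}.Finite := DFinsupp.finite_support _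
    have hsub : {i | ψ x i ≠ 0} ⊆ ⋃ n, Jn n := by
      intro i hi
      by_contra hc
      exact hi (hx i hc)
    obtain ⟨n, hn⟩ : ∃ n, {i | ψ x i ≠ 0} ⊆ Jn n := by
      have h1 : (hfin.toFinset : Set ι) ⊆ ⋃ n, Jn n := by rwa [Set.Finite.coe_toFinset]
      obtain ⟨n, hn⟩ := Directed.exists_mem_subset_of_finset_subset_biUnion
        (f := Jn) hJmono.directed_le h1
      exact ⟨n, by rwa [Set.Finite.coe_toFinset] at hn⟩
    refine ⟨n, fun i hi => ?_⟩
    by_contra hc
    exact hi (hn hc)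
  have hlev : ∀ x ∈ suppIn ψ J, x ≠ 0 →
      {v : G | v ∈ level p x ∧ v ∈ suppIn ψ J ∧ p • v = 0}.Infinite := by
    intro x hx hx0
    refine (hUi x hx0).mono ?_
    intro v hv
    obtain ⟨h1, h2⟩ := hUm x v hv
    refine ⟨h1, ?_, h2⟩
    obtain ⟨n, hn⟩ := hmemJ x hx
    refine suppIn_mono ψ ?_ (hFm v)
    intro i hi
    refine Set.mem_iUnion.2 ⟨n + 1, ?_⟩
    rw [hJsucc]
    right
    exact Set.mem_biUnion hn (Set.mem_biUnion hv hi)
  obtain ⟨τ, l, hτ, hl⟩ := exists_shift hG (suppIn ψ J) (suppIn_countable ψ J hJc) (projOn ψ J)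
    (projOn_mem ψ J) (projOn_eq ψ J) hlev
  refine no_map_of_shift (suppIn ψ J : Set G) (suppIn_countable ψ J hJc) τ hτ l hl g ?_
  intro n
  refine ⟨?_, hg0 n⟩
  refine suppIn_mono ψ ?_ (hFm _)
  intro i hi
  exact Set.mem_iUnion.2 ⟨0, Set.mem_iUnion.2 ⟨n, hi⟩⟩

omit hp in
/-- A `p`-group with a nonzero finite fully invariant subgroup is not slender. -/
theorem not_slender_of_finite_fi (N : AddSubgroup G)
    (hN : ∀ φ : AddMonoid.End G, ∀ x ∈ N, φ x ∈ N) (hfin : (N : Set G).Finite) (hne : N ≠ ⊥) :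
    ¬ IsSlender (AddMonoid.End G) G := by
  obtain ⟨x, hx0⟩ := AddSubgroup.ne_bot_iff_exists_ne_zero.1 hne
  let N' : Submodule (AddMonoid.End G) G :=
    { carrier := N
      add_mem' := fun ha hb => N.add_mem ha hb
      zero_mem' := N.zero_mem
      smul_mem' := fun φ x hx => hN φ x hx }
  exact not_isSlender_of_finite_submodule N' hfin x x.2 fun h => hx0 (Subtype.ext h)

end DSC

end Pool.Agent.Lib_MP_fa2e48_al
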