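import Mathlib
import Pool.Agent.Lib_MP_fa2e48_al.Defs
import Pool.Agent.Lib_MP_fa2e48_al.DSC

/-!
# Mader's question for direct sums of countable `p`-groups

Complete answer for all abelian `p`-groups that are direct sums of countable groups (in particular
for all countable `p`-groups, of arbitrary length).  `IsSlender` is defined in
`Pool/Agent/Lib_MP_fa2e48_al/Defs.lean`.
-/

namespace Pool.Agent.Lib_MP_fa2e48_al.DirectSumsOfCountableOld

open Pool.Agent.Lib_MP_fa2e48_al

/-- Let the abelian `p`-group `A` be the (internal) direct sum of countable subgroups `B i`.  Then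
`A` is slender as a left module over its endomorphism ring if and only if `0` is the only finite
fully invariant subgroup of `A`. -/
theorem result (p : ℕ) [Fact p.Prime] (A : Type*) [AddCommGroup A]
    (hA : ∀ a : A, ∃ k : ℕ, p ^ k • a = 0)
    {ι : Type*} [DecidableEq ι] (B : ι → AddSubgroup A) (hB : DirectSum.IsInternal B)
    (hcount : ∀ i, (B i : Set A).Countable) :
    IsSlender (AddMonoid.End A) A ↔
      ∀ N : AddSubgroup A, (∀ φ : AddMonoid.End A, ∀ x ∈ N, φ x ∈ N) → (N : Set A).Finite →
        N = ⊥ := by
  constructor
  · intro h N hN hfin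
    by_contra hne
    exact not_slender_of_finite_fi N hN hfin hne h
  · intro h
    have hc : ∀ i, Countable (B i) := fun i => (hcount i).to_subtype
    exact slender_of_dsc (A := fun i => B i) hA
      (AddEquiv.ofBijective (DirectSum.coeAddMonoidHom B) hB).symm h

end Pool.Agent.Lib_MP_fa2e48_al.DirectSumsOfCountableOld
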