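import Mathlib
import Pool.Agent.Lib_MP_fa2e48_al.Defs
import Pool.Agent.Lib_MP_fa2e48_al.General
import Pool.Agent.Lib_MP_fa2e48_al.Inj
import Pool.Agent.Lib_MP_fa2e48_al.Unbounded

/-!
# Slenderness from infinite direct summands: bounded groups and divisible groups
-/

namespace Pool.Agent.Lib_MP_fa2e48_al

section Retract

variable {A : Type*} [AddCommGroup A]

/-- If `ℕ →₀ Q` is a retract of `A` and `Q` separates the points of `A`, then `A` is slender. -/
theorem slender_of_retract {Q : Type*} [AddCommGroup Q] (ι : (ℕ →₀ Q) →+ A) (π : A →+ (ℕ →₀ Q))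
    (hπ : ∀ x, π (ι x) = x) (hχ : ∀ a : A, a ≠ 0 → ∃ χ : A →+ Q, χ a ≠ 0) :
    IsSlender (AddMonoid.End A) A := by
  intro f
  by_contra hf
  obtain ⟨g, hg⟩ := exists_reindex (⊥ : Submodule (AddMonoid.End A) A) f (by simpa using hf)
  have hg' : ∀ n, g (Pi.single n 1) ≠ 0 := fun n => by simpa using hg n
  choose χ hχ using fun n => hχ _ (hg' n)
  let φ : ℕ → AddMonoid.End A := fun n => ι.comp ((Finsupp.singleAddHom n).comp (χ n))
  obtain ⟨k, hk⟩ : ∃ k, k ∉ (π (g φ)).support := Infinite.exists_notMem_finset _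
  have hk0 : (π (g φ)) k = 0 := by simpa using hk
  let ε : AddMonoid.End A := ι.comp ((Finsupp.singleAddHom k).comp ((Finsupp.applyAddHom k).comp π))
  have h1 : ε • g φ = 0 := by
    show ι (Finsupp.single k ((π (g φ)) k)) = 0
    rw [hk0]
    simp
  have h2 : ε • φ = φ k • (Pi.single k 1 : ℕ → AddMonoid.End A) := by
    funext n
    ext x
    by_cases hn : n = k
    · subst hn
      simp only [Pi.smul_apply, Pi.single_eq_same, smul_eq_mul, mul_one]
      show ι (Finsupp.single n ((π (ι (Finsupp.single n (χ n x)))) n)) = _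
      rw [hπ]
      simp [φ]
      rfl
    · simp only [Pi.smul_apply, smul_eq_mul]
      show ι (Finsupp.single k ((π (ι (Finsupp.single n (χ n x)))) k)) = _
      rw [hπ]
      simp [hn]
  rw [← map_smul, h2, map_smul] at h1
  have h3 : ι (Finsupp.single k (χ k (g (Pi.single k 1)))) = 0 := h1
  have h4 := congrArg π h3
  rw [hπ, map_zero] at h4
  have h5 := DFunLike.congr_fun h4 k
  simp only [Finsupp.single_eq_same, Finsupp.coe_zero, Pi.zero_apply] at h5
  exact hχ k h5

/-- Injectivity can be checked on the socle of a `p`-group. -/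
theorem injective_of_socle {p : ℕ} {C : Type*} [AddCommGroup C]
    (hC : ∀ c : C, ∃ k : ℕ, p ^ k • c = 0) (ι : C →+ A) (h : ∀ c : C, p • c = 0 → ι c = 0 → c = 0) :
    Function.Injective ι := by
  rw [injective_iff_map_eq_zero]
  intro c hc
  by_contra hc0
  classical
  obtain ⟨k, hk, hmin⟩ : ∃ k, p ^ k • c = 0 ∧ ∀ j < k, p ^ j • c ≠ 0 :=
    ⟨Nat.find (hC c), Nat.find_spec (hC c), fun j hj => Nat.find_min (hC c) hj⟩
  have hk0 : k ≠ 0 := by
    rintro rfl
    exact hc0 (by simpa using hk)
  refine hmin (k - 1) (by omega) (h _ ?_ ?_)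
  · rw [← mul_smul, ← pow_succ', Nat.sub_add_cancel (by omega), hk]
  · rw [map_nsmul, hc, smul_zero]

theorem exists_indep_aux {p : ℕ} [Fact p.Prime] {V : Type*} [AddCommGroup V]
    (hV : ∀ v : V, p • v = 0) [Infinite V] :
    ∃ v : ℕ → V, ∀ (s : Finset ℕ) (g : ℕ → ℤ), ∑ n ∈ s, g n • v n = 0 →
      ∀ n ∈ s, (p : ℤ) ∣ g n := by
  let inst : Module (ZMod p) V := AddCommGroup.zmodModule (n := p) (G := V) hV
  let b := Module.Basis.ofVectorSpace (ZMod p) V
  have hI : Infinite (Module.Basis.ofVectorSpaceIndex (ZMod p) V) := by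
    by_contra hc
    rw [not_infinite_iff_finite] at hc
    have h1 : Module.Finite (ZMod p) V := Module.Finite.of_basis b
    have h2 : Finite V := Module.finite_of_finite (ZMod p) (M := V)
    exact not_finite V
  let e := Infinite.natEmbedding (Module.Basis.ofVectorSpaceIndex (ZMod p) V)
  have hli : LinearIndependent (ZMod p) (fun n => b (e n)) := b.linearIndependent.comp _ e.injective
  refine ⟨fun n => b (e n), ?_⟩
  intro s g hg n hn
  rw [linearIndependent_iff'] at hli
  have h1 := hli s (fun n => (g n : ZMod p)) (by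
    simp only [Int.cast_smul_eq_zsmul]
    exact hg) n hn
  exact (ZMod.intCast_zmod_eq_zero_iff_dvd _ _).1 h1

/-- An infinite elementary abelian subgroup contains an infinite independent sequence. -/
theorem exists_indep {p : ℕ} [Fact p.Prime] (V : AddSubgroup A) (hV : ∀ v ∈ V, p • v = 0)
    (hinf : (V : Set A).Infinite) :
    ∃ v : ℕ → A, (∀ n, v n ∈ V) ∧
      ∀ (s : Finset ℕ) (g : ℕ → ℤ), ∑ n ∈ s, g n • v n = 0 → ∀ n ∈ s, (p : ℤ) ∣ g n := by
  have hInf : Infinite V := Set.infinite_coe_iff.2 hinf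
  obtain ⟨v, hv⟩ := exists_indep_aux (p := p) (V := V) (fun x => Subtype.ext (hV x x.2))
  refine ⟨fun n => (v n : A), fun n => (v n).2, fun s g hg => hv s g ?_⟩
  ext
  simp only [AddSubgroup.val_finsetSum, AddSubgroup.coe_zsmul, ZeroMemClass.coe_zero]
  exact hg

end Retract

section Bounded

variable {p : ℕ} [hp : Fact p.Prime] {A : Type*} [AddCommGroup A]

theorem slender_of_bounded_aux (k : ℕ) [Module (ZMod (p ^ (k + 1))) A]
    (hb : ∀ a : A, p ^ (k + 1) • a = 0)
    (hinf : (Set.range fun a : A => p ^ k • a).Infinite) : IsSlender (AddMonoid.End A) A := by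
  obtain ⟨v, hvV, hv⟩ := exists_indep (p := p) (nsmulAddMonoidHom (α := A) (p ^ k)).range (by
    rintro _ ⟨a, rfl⟩
    show p • (p ^ k • a) = 0
    rw [smul_smul, ← pow_succ', hb]) hinf
  choose x hx using hvV
  replace hx : ∀ n, p ^ k • x n = v n := hx
  let ι : (ℕ →₀ ZMod (p ^ (k + 1))) →ₗ[ZMod (p ^ (k + 1))] A :=
    Finsupp.linearCombination (ZMod (p ^ (k + 1))) x
  have hinj : Function.Injective ι := by
    refine injective_of_socle (p := p) (fun c => ⟨k + 1, ?_⟩) ι.toAddMonoidHom ?_
    · ext n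
      simp only [Finsupp.smul_apply, Finsupp.coe_zero, Pi.zero_apply, nsmul_eq_mul]
      push_cast
      rw [cast_pow_self, zero_mul]
    · intro c hpc hc
      have h1 : ∀ n, ∃ d : ℤ, c n = (p : ZMod (p ^ (k + 1))) ^ k * (d : ZMod (p ^ (k + 1))) := by
        intro n
        obtain ⟨d, hd⟩ := zmod_div_aux (p := p) (k + 1) k 1 rfl (c n) (by
          have := DFunLike.congr_fun hpc n
          simpa using this)
        obtain ⟨d', rfl⟩ := ZMod.intCast_surjective d
        exact ⟨d', by rw [← hd, smul_eq_mul]⟩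
      choose d hd using h1
      have h2 : ∑ n ∈ c.support, d n • v n = 0 := by
        have h3 : ι c = 0 := hc
        simp only [ι] at h3
        rw [Finsupp.linearCombination_apply, Finsupp.sum] at h3
        rw [← h3]
        refine Finset.sum_congr rfl fun n _ => ?_
        rw [← hx n, hd n, mul_comm, mul_smul, Int.cast_smul_eq_zsmul]
        congr 1
        have : ((p : ZMod (p ^ (k + 1))) ^ k) = ((p ^ k : ℕ) : ZMod (p ^ (k + 1))) := by
          push_cast; rfl
        rw [this, Nat.cast_smul_eq_nsmul]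
      ext n
      simp only [Finsupp.coe_zero, Pi.zero_apply]
      by_cases hn : n ∈ c.support
      · obtain ⟨e, he⟩ := hv c.support d h2 n hn
        rw [hd n, he]
        push_cast
        rw [← mul_assoc, ← pow_succ, cast_pow_self, zero_mul]
      · simpa using hn
  obtain ⟨π, hπ⟩ := (baer_zmod_finsupp (p := p) (k + 1) ℕ).extension_property ι hinj LinearMap.id
  refine slender_of_retract (Q := ZMod (p ^ (k + 1))) ι.toAddMonoidHom π.toAddMonoidHom
    (fun x => LinearMap.congr_fun hπ x) ?_
  intro a ha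
  obtain ⟨χ, hχ⟩ := exists_form (p := p) k a ha
  refine ⟨χ.toAddMonoidHom, ?_⟩
  show χ a ≠ 0
  rw [hχ]
  intro h0
  have h1 : ((p ^ k : ℕ) : ZMod (p ^ (k + 1))) = 0 := by push_cast; exact h0
  rw [ZMod.natCast_eq_zero_iff] at h1
  have h2 := (Nat.pow_dvd_pow_iff_le_right hp.out.one_lt).1 h1
  omega

/-- Bounded groups with infinite last layer are slender. -/
theorem slender_of_bounded (k : ℕ) (hb : ∀ a : A, p ^ (k + 1) • a = 0)
    (hinf : (Set.range fun a : A => p ^ k • a).Infinite) : IsSlender (AddMonoid.End A) A := by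
  let inst : Module (ZMod (p ^ (k + 1))) A := AddCommGroup.zmodModule hb
  exact slender_of_bounded_aux k hb hinf

end Bounded

end Pool.Agent.Lib_MP_fa2e48_al
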