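import Mathlib
import Pool.Agent.Lib_MP_fa2e48_al.Defs
import Pool.Agent.Lib_MP_fa2e48_al.General
import Pool.Agent.Lib_MP_fa2e48_al.Inj
import Pool.Agent.Lib_MP_fa2e48_al.Unbounded
import Pool.Agent.Lib_MP_fa2e48_al.Summand

/-!
# Groups with a nonzero divisible part
-/

namespace Pool.Agent.Lib_MP_fa2e48_al

section Divisible

variable {p : ℕ} [hp : Fact p.Prime]

/-- A `p`-divisible `p`-group is divisible. -/
theorem divisible_of_pdivisible {Q : Type*} [AddCommGroup Q]
    (hQ : ∀ q : Q, ∃ k : ℕ, p ^ k • q = 0) (hdiv : ∀ q : Q, ∃ r : Q, p • r = q)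
    (n : ℕ) (hn : n ≠ 0) (q : Q) : ∃ r : Q, n • r = q := by
  obtain ⟨a, m, hm, rfl⟩ := Nat.exists_eq_pow_mul_and_not_dvd hn p hp.out.ne_one
  have hpow : ∀ a : ℕ, ∀ q : Q, ∃ r : Q, p ^ a • r = q := by
    intro a
    induction a with
    | zero => exact fun q => ⟨q, by simp⟩
    | succ a ih =>
      intro q
      obtain ⟨r, hr⟩ := hdiv q
      obtain ⟨t, ht⟩ := ih r
      exact ⟨t, by rw [pow_succ', mul_smul, ht, hr]⟩
  obtain ⟨r, hr⟩ := hpow a q
  obtain ⟨k, hk⟩ := hQ r
  have hco : Nat.Coprime m (p ^ k) := by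
    apply Nat.Coprime.pow_right
    rw [Nat.coprime_comm]
    exact (Nat.Prime.coprime_iff_not_dvd hp.out).2 hm
  have hbez := Nat.gcd_eq_gcd_ab m (p ^ k)
  rw [hco] at hbez
  refine ⟨(Nat.gcdA m (p ^ k)) • r, ?_⟩
  have h1 : (m : ℤ) • ((Nat.gcdA m (p ^ k)) • r) = r := by
    rw [smul_smul]
    have h2 : ((m : ℤ) * Nat.gcdA m (p ^ k)) • r + (((p ^ k : ℕ) : ℤ) * Nat.gcdB m (p ^ k)) • r =
        ((1 : ℕ) : ℤ) • r := by
      rw [← add_smul, ← hbez]
    rw [mul_comm ((p ^ k : ℕ) : ℤ), mul_smul _ ((p ^ k : ℕ) : ℤ), natCast_zsmul r (p ^ k), hk,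
      smul_zero, add_zero] at h2
    simpa using h2
  rw [mul_smul, ← natCast_zsmul _ m, h1, hr]

/-- A `p`-divisible `p`-group is injective. -/
theorem baer_of_pdivisible {Q : Type*} [AddCommGroup Q]
    (hQ : ∀ q : Q, ∃ k : ℕ, p ^ k • q = 0) (hdiv : ∀ q : Q, ∃ r : Q, p • r = q) :
    Module.Baer ℤ Q := by
  have h : ∀ {n : ℤ}, n ≠ 0 → Function.Surjective (fun a : Q => n • a) := by
    intro n hn q
    obtain ⟨r, hr⟩ := divisible_of_pdivisible hQ hdiv n.natAbs (by omega) q
    rcases Int.natAbs_eq n with h1 | h1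
    · refine ⟨r, ?_⟩
      show n • r = q
      rw [h1, natCast_zsmul, hr]
    · refine ⟨-r, ?_⟩
      show n • (-r) = q
      rw [h1, neg_smul, smul_neg, neg_neg, natCast_zsmul, hr]
  let inst : DivisibleBy Q ℤ := divisibleByOfSMulRightSurj Q ℤ h
  exact Module.Baer.of_divisible Q

/-- Extension of a homomorphism given on one element. -/
theorem exists_hom_of_order {C Q : Type*} [AddCommGroup C] [AddCommGroup Q] (hQ : Module.Baer ℤ Q)
    (c : C) (hc0 : c ≠ 0) (hc : p • c = 0) (q : Q) (hq : p • q = 0) : ∃ φ : C →+ Q, φ c = q := by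
  have H : ∀ n : ℤ, n • c = 0 → (RingHom.id ℤ) n • q = 0 := by
    intro n hn
    have hdvd : (p : ℤ) ∣ n := by
      by_contra hnd
      apply hc0
      have hco : IsCoprime (p : ℤ) n :=
        ((Nat.prime_iff_prime_int.1 hp.out).coprime_iff_not_dvd).2 hnd
      obtain ⟨u, v, huv⟩ := hco
      have : (1 : ℤ) • c = 0 := by
        rw [← huv, add_smul, mul_smul, mul_smul, hn, smul_zero, add_zero, natCast_zsmul, hc,
          smul_zero]
      simpa using this
    obtain ⟨m, rfl⟩ := hdvd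
    simp only [RingHom.id_apply]
    rw [mul_comm, mul_smul, natCast_zsmul, hq, smul_zero]
  let g := LinearPMap.mkSpanSingleton' c q H
  obtain ⟨χ, hχ⟩ := hQ.extension_property
    (Submodule.span ℤ {c}).subtype (Submodule.injective_subtype _) g.toFun
  refine ⟨χ.toAddMonoidHom, ?_⟩
  have := LinearMap.congr_fun hχ ⟨c, Submodule.mem_span_singleton_self c⟩
  simp only [LinearMap.comp_apply, Submodule.subtype_apply] at this
  show χ c = q
  rw [this]
  exact LinearPMap.mkSpanSingleton'_apply_self c _ H _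

variable {A : Type*} [AddCommGroup A]

/-- The quasi-cyclic subgroup generated by a sequence `s` with `p • s (i+1) = s i`. -/
theorem exists_pruefer (s : ℕ → A) (hs : ∀ i, p • s (i + 1) = s i) (h0 : p • s 0 = 0)
    (h00 : s 0 ≠ 0) :
    ∃ Q : AddSubgroup A, s 0 ∈ Q ∧ (∀ q : Q, ∃ k : ℕ, p ^ k • q = 0) ∧
      (∀ q : Q, ∃ r : Q, p • r = q) ∧
      (∀ q ∈ Q, p • q = 0 → ∃ m : ℤ, q = m • s 0) := by
  have hsj : ∀ j i, p ^ j • s (i + j) = s i := by
    intro j
    induction j with
    | zero => intro i; simp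
    | succ j ih =>
      intro i
      rw [← add_assoc, pow_succ, mul_smul, hs, ih]
  let Q : AddSubgroup A :=
    { carrier := {a | ∃ (i : ℕ) (m : ℤ), a = m • s i}
      add_mem' := by
        rintro _ _ ⟨i, m, rfl⟩ ⟨j, n, rfl⟩
        refine ⟨i + j, m * (p ^ j : ℕ) + n * (p ^ i : ℕ), ?_⟩
        have h1 := hsj j i
        have h2 := hsj i j
        rw [add_comm j i] at h2
        rw [add_smul, mul_smul, mul_smul, natCast_zsmul, natCast_zsmul, h1, h2]
      zero_mem' := ⟨0, 0, by simp⟩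
      neg_mem' := by
        rintro _ ⟨i, m, rfl⟩
        exact ⟨i, -m, by rw [neg_smul]⟩ }
  have hord : ∀ i, p ^ (i + 1) • s i = 0 := by
    intro i
    have := hsj i 0
    rw [zero_add] at this
    rw [pow_succ', mul_smul, this, h0]
  refine ⟨Q, ⟨0, 1, by simp⟩, ?_, ?_, ?_⟩
  · rintro ⟨_, i, m, rfl⟩
    refine ⟨i + 1, ?_⟩
    ext
    simp only [AddSubgroup.coe_nsmul, ZeroMemClass.coe_zero]
    rw [smul_comm, hord, smul_zero]
  · rintro ⟨_, i, m, rfl⟩
    refine ⟨⟨m • s (i + 1), i + 1, m, rfl⟩, ?_⟩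
    ext
    simp only [AddSubgroup.coe_nsmul]
    rw [smul_comm, hs]
  · rintro _ ⟨i, m, rfl⟩ hm
    -- `p ^ (i+1) ∣ p * m`
    have hdvd : ((p : ℤ) ^ i) ∣ m := by
      have key : ∀ j ≤ i, ((p : ℤ) ^ j) ∣ m := by
        intro j
        induction j with
        | zero => intro _; simp
        | succ j ih =>
          intro hj
          obtain ⟨b, hb⟩ := ih (by omega)
          -- p ^ (j+1) b s_i = 0, multiply by p ^ (i - j - 1): b • s 0 = 0
          have h1 : b • s 0 = 0 := by
            have h2 := hsj i 0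
            rw [zero_add] at h2
            have h3 : p ^ (i - j - 1) • (p • (m • s i)) = 0 := by rw [hm, smul_zero]
            rw [← h2, smul_comm b]
            have h4 : p ^ i • (b • s i) = p ^ (i - j - 1) • (p • (m • s i)) := by
              rw [hb]
              rw [mul_smul, smul_smul (p ^ (i - j - 1)) p, ← pow_succ]
              have h5 : ((p : ℤ) ^ j) • (b • s i) = p ^ j • (b • s i) := by
                rw [← natCast_zsmul]; push_cast; rfl
              rw [h5, smul_smul, ← pow_add]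
              congr 2
              omega
            rw [h4, h3]
          have hpb : (p : ℤ) ∣ b := by
            by_contra hnd
            apply h00
            have hco : IsCoprime (p : ℤ) b :=
              ((Nat.prime_iff_prime_int.1 hp.out).coprime_iff_not_dvd).2 hnd
            obtain ⟨u, v, huv⟩ := hco
            have : (1 : ℤ) • s 0 = 0 := by
              rw [← huv, add_smul, mul_smul, mul_smul, h1, smul_zero, add_zero, natCast_zsmul, h0,
                smul_zero]
            simpa using this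
          obtain ⟨c, rfl⟩ := hpb
          exact ⟨c, by rw [hb, pow_succ]; ring⟩
      exact key i le_rfl
    obtain ⟨b, rfl⟩ := hdvd
    refine ⟨b, ?_⟩
    have h2 := hsj i 0
    rw [zero_add] at h2
    have h5 : ((p : ℤ) ^ i) • s i = p ^ i • s i := by
      rw [← natCast_zsmul]; push_cast; rfl
    rw [mul_comm, mul_smul, h5, h2]

/-- A `p`-group with a divisible subgroup of infinite rank is slender over its endomorphism
ring. -/
theorem slender_of_divisible (hA : ∀ a : A, ∃ k : ℕ, p ^ k • a = 0) (D : AddSubgroup A)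
    (hD : ∀ d ∈ D, ∃ e ∈ D, p • e = d) (hinf : {d : A | d ∈ D ∧ p • d = 0}.Infinite) :
    IsSlender (AddMonoid.End A) A := by
  have hDB : Module.Baer ℤ D := baer_of_pdivisible (p := p)
    (fun q => by
      obtain ⟨k, hk⟩ := hA q
      exact ⟨k, Subtype.ext (by simpa using hk)⟩)
    (fun q => by
      obtain ⟨e, he, hpe⟩ := hD q q.2
      exact ⟨⟨e, he⟩, Subtype.ext (by simpa using hpe)⟩)
  -- an independent sequence in the socle of `D`
  let V : AddSubgroup A :=
    { carrier := {d : A | d ∈ D ∧ p • d = 0}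
      add_mem' := fun ha hb => ⟨D.add_mem ha.1 hb.1, by rw [smul_add, ha.2, hb.2, add_zero]⟩
      zero_mem' := ⟨D.zero_mem, smul_zero _⟩
      neg_mem' := fun ha => ⟨D.neg_mem ha.1, by rw [smul_neg, ha.2, neg_zero]⟩ }
  obtain ⟨v, hvV, hv⟩ := exists_indep (p := p) V (fun v hv => hv.2) hinf
  have hvD : ∀ n, v n ∈ D := fun n => (hvV n).1
  have hvp : ∀ n, p • v n = 0 := fun n => (hvV n).2
  have hv00 : v 0 ≠ 0 := by
    intro h
    have := hv {0} (fun _ => 1) (by simp [h]) 0 (by simp)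
    have h2 : (p : ℤ) ≤ 1 := Int.le_of_dvd one_pos this
    have := hp.out.two_le
    omega
  -- a quasi-cyclic subgroup through `v 0`
  choose! e heD hpe using hD
  let s : ℕ → A := fun i => Nat.rec (v 0) (fun _ x => e x) i
  have hsD : ∀ i, s i ∈ D := by
    intro i
    induction i with
    | zero => exact hvD 0
    | succ i ih => exact heD _ ih
  obtain ⟨Q, hsQ, hQ, hQdiv, hQs⟩ := exists_pruefer (p := p) s (fun i => hpe _ (hsD i)) (hvp 0) hv00
  have hQB : Module.Baer ℤ Q := baer_of_pdivisible (p := p) hQ hQdiv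
  let q0 : Q := ⟨s 0, hsQ⟩
  have hq0 : p • q0 = 0 := Subtype.ext (show p • s 0 = 0 from hvp 0)
  have hq00 : q0 ≠ 0 := fun h => hv00 (congrArg Subtype.val h)
  -- the maps `ι n : Q → D`
  have hι : ∀ n, ∃ φ : Q →+ D, φ q0 = ⟨v n, hvD n⟩ := fun n =>
    exists_hom_of_order hDB q0 hq00 hq0 ⟨v n, hvD n⟩ (Subtype.ext (by simpa using hvp n))
  choose ι hι using hι
  let I : (ℕ →₀ Q) →+ A := Finsupp.liftAddHom fun n => D.subtype.comp (ι n)
  have hFp : ∀ c : ℕ →₀ Q, ∃ k : ℕ, p ^ k • c = 0 := by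
    intro c
    choose k hk using hQ
    refine ⟨∑ n ∈ c.support, k (c n), ?_⟩
    ext n
    by_cases hn : n ∈ c.support
    · have h1 : k (c n) ≤ ∑ n ∈ c.support, k (c n) :=
        Finset.single_le_sum (f := fun n => k (c n)) (fun _ _ => Nat.zero_le _) hn
      obtain ⟨t, ht⟩ := Nat.exists_eq_add_of_le h1
      rw [Finsupp.smul_apply, ht, Nat.add_comm, pow_add, mul_smul, hk]
      simp
    · have : c n = 0 := by simpa using hn
      rw [Finsupp.smul_apply, this]
      simp
  have hinj : Function.Injective I := by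
    refine injective_of_socle (p := p) hFp I ?_
    intro c hpc hc
    have h1 : ∀ n, ∃ m : ℤ, c n = m • q0 := by
      intro n
      have h2 : p • (c n) = 0 := by
        have := DFunLike.congr_fun hpc n
        simpa using this
      obtain ⟨m, hm⟩ := hQs (c n) (c n).2 (by
        have := congrArg Subtype.val h2
        simpa using this)
      exact ⟨m, Subtype.ext (by simpa using hm)⟩
    choose m hm using h1
    have h2 : ∑ n ∈ c.support, m n • v n = 0 := by
      rw [← hc]
      show _ = c.sum fun n => (D.subtype.comp (ι n))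
      rw [Finsupp.sum]
      refine Finset.sum_congr rfl fun n _ => ?_
      rw [hm n, map_zsmul]
      congr 1
      show v n = ((ι n q0 : D) : A)
      rw [hι]
    ext n
    by_cases hn : n ∈ c.support
    · obtain ⟨b, hb⟩ := hv c.support m h2 n hn
      rw [hm n, hb, mul_comm, mul_smul, natCast_zsmul, hq0]
      simp
    · have : c n = 0 := by simpa using hn
      rw [this]
      simp
  have hFB : Module.Baer ℤ (ℕ →₀ Q) := by
    refine baer_of_pdivisible (p := p) hFp ?_
    have key : ∀ q : Q, ∃ r : Q, p • r = q ∧ (q = 0 → r = 0) := by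
      intro q
      by_cases hq : q = 0
      · exact ⟨0, by simp [hq], fun _ => rfl⟩
      · obtain ⟨r, hr⟩ := hQdiv q
        exact ⟨r, hr, fun h => absurd h hq⟩
    choose r hr hr0 using key
    intro c
    refine ⟨c.mapRange r (hr0 0 rfl), ?_⟩
    ext n
    simp [hr]
  obtain ⟨π, hπ⟩ := hFB.extension_property_addMonoidHom I hinj (AddMonoidHom.id _)
  refine slender_of_retract (Q := Q) I π (fun x => DFunLike.congr_fun hπ x) ?_
  intro a ha
  classical
  obtain ⟨k, hk, hmin⟩ : ∃ k, p ^ k • a = 0 ∧ ∀ j < k, p ^ j • a ≠ 0 :=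
    ⟨Nat.find (hA a), Nat.find_spec (hA a), fun j hj => Nat.find_min (hA a) hj⟩
  have hk0 : k ≠ 0 := by
    rintro rfl
    exact ha (by simpa using hk)
  obtain ⟨χ, hχ⟩ := exists_hom_of_order hQB (p ^ (k - 1) • a) (hmin _ (by omega)) (by
    rw [← mul_smul, ← pow_succ', Nat.sub_add_cancel (by omega), hk]) q0 hq0
  refine ⟨χ, fun h => hq00 ?_⟩
  rw [← hχ, map_nsmul, h, smul_zero]

/-- The divisible part. -/
def divPart (p : ℕ) (A : Type*) [AddCommGroup A] : Submodule (AddMonoid.End A) A where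
  carrier := {a | ∃ s : ℕ → A, s 0 = a ∧ ∀ i, p • s (i + 1) = s i}
  add_mem' := by
    rintro _ _ ⟨s, rfl, hs⟩ ⟨t, rfl, ht⟩
    exact ⟨s + t, rfl, fun i => by simp [hs, ht]⟩
  zero_mem' := ⟨0, rfl, fun i => by simp⟩
  smul_mem' := by
    rintro φ _ ⟨s, rfl, hs⟩
    exact ⟨fun i => φ (s i), rfl, fun i => by rw [← map_nsmul, hs]⟩

omit hp in
/-- If the divisible part is nonzero with finite socle, then `A` is not slender. -/
theorem not_slender_of_divPart (hA : ∀ a : A, ∃ k : ℕ, p ^ k • a = 0)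
    (hne : divPart p A ≠ ⊥) (hfin : {d : A | d ∈ divPart p A ∧ p • d = 0}.Finite) :
    ¬ IsSlender (AddMonoid.End A) A := by
  let N : Submodule (AddMonoid.End A) A :=
    { carrier := {d : A | d ∈ divPart p A ∧ p • d = 0}
      add_mem' := fun ha hb => ⟨add_mem ha.1 hb.1, by rw [smul_add, ha.2, hb.2, add_zero]⟩
      zero_mem' := ⟨zero_mem _, smul_zero _⟩
      smul_mem' := fun φ a ha => ⟨Submodule.smul_mem _ φ ha.1, by
        show p • φ a = 0
        rw [← map_nsmul, ha.2, map_zero]⟩ }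
  obtain ⟨t, ht, ht0⟩ := (Submodule.ne_bot_iff _).1 hne
  classical
  obtain ⟨k, hk, hmin⟩ : ∃ k, p ^ k • t = 0 ∧ ∀ j < k, p ^ j • t ≠ 0 :=
    ⟨Nat.find (hA t), Nat.find_spec (hA t), fun j hj => Nat.find_min (hA t) hj⟩
  have hk0 : k ≠ 0 := by
    rintro rfl
    exact ht0 (by simpa using hk)
  refine not_isSlender_of_finite_submodule N hfin (p ^ (k - 1) • t) ⟨?_, ?_⟩ (hmin _ (by omega))
  · exact nsmul_mem ht _
  · rw [← mul_smul, ← pow_succ', Nat.sub_add_cancel (by omega), hk]

end Divisible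

end Pool.Agent.Lib_MP_fa2e48_al
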